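import Pool.Agent.Helper10.CR.Goals2

/-!
# Packet CR-LRS: local rings in which any two incomparable elements generate the maximal ideal
-/

universe u

namespace Pool.Agent.Helper32.CR

open Pool.Agent.Helper10.Width Pool.Agent.Helper72.Width Pool.Agent.Helper78.SD
open Pool.Agent.Helper10.CR
open IsLocalRing

section

variable {R : Type u} [CommRing R] [IsLocalRing R]

theorem mem_of_not_dvd {a b : R} (h : ¬ a ∣ b) : a ∈ maximalIdeal R := by
  rw [mem_maximalIdeal, mem_nonunits_iff]
  exact fun hu => h hu.dvd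

theorem unit_of_not_mem {a : R} (h : a ∉ maximalIdeal R) : IsUnit a := by
  rw [mem_maximalIdeal, mem_nonunits_iff, not_not] at h
  exact h

theorem nak (hfg : (maximalIdeal R).FG) {N : Ideal R}
    (h : maximalIdeal R ≤ N ⊔ maximalIdeal R * maximalIdeal R) : maximalIdeal R ≤ N :=
  Submodule.le_of_le_smul_of_le_jacobson_bot hfg (IsLocalRing.maximalIdeal_le_jacobson _) h

/-- An element fixed by an element of the maximal ideal is zero. -/
theorem eq_zero_of_fix {g c : R} (hc : c ∈ maximalIdeal R) (h : g = c * g) : g = 0 := by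
  have h1 : IsUnit (1 - c) := by
    by_contra hn
    have h2 : 1 - c ∈ maximalIdeal R := by
      rw [mem_maximalIdeal, mem_nonunits_iff]; exact hn
    have h3 : (1 : R) ∈ maximalIdeal R := by
      have := add_mem h2 hc
      rwa [sub_add_cancel] at this
    exact (Ideal.ne_top_iff_one _).1 (maximalIdeal.isMaximal R).ne_top h3
  have h4 : (1 - c) * g = 0 := by linear_combination h
  exact (h1.mul_right_eq_zero).1 h4

variable (hg : ∀ a b : R, ¬ a ∣ b → ¬ b ∣ a → maximalIdeal R = Ideal.span {a, b})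

include hg

theorem stepA {u v y : R} (huv : ¬ u ∣ v) (hvu : ¬ v ∣ u)
    (hy : y ∈ maximalIdeal R * maximalIdeal R) : ∃ t ∈ maximalIdeal R, y = t * u := by
  have hm := hg u v huv hvu
  have hfg : (maximalIdeal R).FG := by
    rw [hm]
    exact (Submodule.fg_span (by simp : ({u, v} : Set R).Finite))
  have hum : u ∈ maximalIdeal R := mem_of_not_dvd huv
  have hvm : v ∈ maximalIdeal R := mem_of_not_dvd hvu
  -- `u` is not in the square
  have hu2 : u ∉ maximalIdeal R * maximalIdeal R := by
    intro hu2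
    have h1 : maximalIdeal R ≤ Ideal.span {v} := by
      apply nak hfg
      conv_lhs => rw [hm]
      rw [Ideal.span_le]
      rintro z (rfl | rfl)
      · exact Ideal.mem_sup_right hu2
      · exact Ideal.mem_sup_left (Ideal.mem_span_singleton_self _)
    exact hvu (Ideal.mem_span_singleton.1 (h1 hum))
  by_cases h1 : u ∣ y
  · obtain ⟨t, rfl⟩ := h1
    refine ⟨t, ?_, mul_comm _ _⟩
    by_contra ht
    obtain ⟨t', ht'⟩ := (unit_of_not_mem ht).exists_right_inv
    apply hu2
    have : u = (u * t) * t' := by rw [mul_assoc, ht', mul_one]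
    rw [this]
    exact Ideal.mul_mem_right _ _ hy
  · exfalso
    by_cases h2 : y ∣ u
    · obtain ⟨t, ht⟩ := h2
      apply hu2
      rw [ht]
      exact Ideal.mul_mem_right _ _ hy
    · have hm2 := hg u y h1 h2
      have h3 : maximalIdeal R ≤ Ideal.span {u} := by
        apply nak hfg
        conv_lhs => rw [hm2]
        rw [Ideal.span_le]
        rintro z (rfl | rfl)
        · exact Ideal.mem_sup_left (Ideal.mem_span_singleton_self _)
        · exact Ideal.mem_sup_right hy
      exact huv (Ideal.mem_span_singleton.1 (h3 hvm))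

theorem stepB {u v y y' : R} (huv : ¬ u ∣ v) (hvu : ¬ v ∣ u)
    (hy : y ∈ maximalIdeal R * maximalIdeal R) (hy' : y' ∈ maximalIdeal R * maximalIdeal R) :
    y ∣ y' ∨ y' ∣ y := by
  by_contra hc
  rw [not_or] at hc
  have hm := hg u v huv hvu
  have hfg : (maximalIdeal R).FG := by
    rw [hm]
    exact (Submodule.fg_span (by simp : ({u, v} : Set R).Finite))
  have hm2 := hg y y' hc.1 hc.2
  have h1 : maximalIdeal R ≤ ⊥ := by
    apply nak hfg
    conv_lhs => rw [hm2]
    rw [Ideal.span_le]
    rintro z (rfl | rfl)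
    · exact Ideal.mem_sup_right hy
    · exact Ideal.mem_sup_right hy'
  have h2 : u = 0 := by simpa using h1 (mem_of_not_dvd huv)
  exact hvu (by rw [h2]; exact dvd_zero _)

theorem stepNP {u v g : R} (huv : ¬ u ∣ v) (hvu : ¬ v ∣ u) (hgm : g ∈ maximalIdeal R) :
    ¬ (g ∣ u ∧ g ∣ v) := by
  rintro ⟨⟨t, ht⟩, ⟨s, hs⟩⟩
  have hm := hg u v huv hvu
  have hg2 := hgm
  rw [hm, Ideal.mem_span_pair] at hg2
  obtain ⟨α, β, hαβ⟩ := hg2
  have h1 : g = (α * t + β * s) * g := by
    conv_lhs => rw [← hαβ]
    rw [ht, hs]; ring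
  by_cases hc : α * t + β * s ∈ maximalIdeal R
  · have h0 := eq_zero_of_fix hc h1
    apply hvu
    rw [ht, h0, zero_mul]
    exact dvd_zero _
  · by_cases htm : t ∈ maximalIdeal R
    · by_cases hsm : s ∈ maximalIdeal R
      · exact hc (add_mem (Ideal.mul_mem_left _ _ htm) (Ideal.mul_mem_left _ _ hsm))
      · obtain ⟨s', hs'⟩ := (unit_of_not_mem hsm).exists_right_inv
        apply hvu
        have : g = v * s' := by rw [hs, mul_assoc, hs', mul_one]
        rw [ht, this]
        exact Dvd.intro _ (by ring : v * (s' * t) = v * s' * t)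
    · obtain ⟨t', ht'⟩ := (unit_of_not_mem htm).exists_right_inv
      apply huv
      have : g = u * t' := by rw [ht, mul_assoc, ht', mul_one]
      rw [hs, this]
      exact Dvd.intro _ (by ring : u * (t' * s) = u * t' * s)

theorem stepD {u v y₀ : R} (huv : ¬ u ∣ v) (hvu : ¬ v ∣ u)
    (hy₀ : y₀ ∈ maximalIdeal R * maximalIdeal R)
    (hd : ∀ y ∈ maximalIdeal R * maximalIdeal R, y₀ ∣ y) : y₀ * u = 0 := by
  have hum : u ∈ maximalIdeal R := mem_of_not_dvd huv
  have hvm : v ∈ maximalIdeal R := mem_of_not_dvd hvu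
  have hm := hg u v huv hvu
  obtain ⟨p, hp⟩ := hd (u * u) (Ideal.mul_mem_mul hum hum)
  obtain ⟨q, hq⟩ := hd (u * v) (Ideal.mul_mem_mul hum hvm)
  set g := q * u - p * v with hgdef
  have hgu : g * u = 0 := by
    rw [hgdef]
    linear_combination q * hp - p * hq
  have hgm : g ∈ maximalIdeal R :=
    sub_mem (Ideal.mul_mem_left _ _ hum) (Ideal.mul_mem_left _ _ hvm)
  have fin : ∀ w, ¬ g ∣ w → ¬ w ∣ g → y₀ * u = 0 := by
    intro w h1 h2
    obtain ⟨s, _, hs⟩ := stepA hg h1 h2 hy₀
    rw [hs]
    linear_combination s * hgu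
  by_cases hpm : p ∈ maximalIdeal R
  · by_cases hqm : q ∈ maximalIdeal R
    · obtain ⟨t, htm, ht⟩ := stepA hg huv hvu hy₀
      rw [hm, Ideal.mem_span_pair] at htm
      obtain ⟨r, s, hrs⟩ := htm
      have h1 : y₀ = (r * p + s * q) * y₀ := by
        have : y₀ = (r * u + s * v) * u := by rw [hrs]; exact ht
        linear_combination this + r * hp + s * hq
      have h2 := eq_zero_of_fix (add_mem (Ideal.mul_mem_left _ r hpm)
        (Ideal.mul_mem_left _ s hqm)) h1
      rw [h2, zero_mul]
    · -- `q` is a unit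
      obtain ⟨q', hq'⟩ := (unit_of_not_mem hqm).exists_right_inv
      have hu : u = q' * g + q' * p * v := by
        rw [hgdef]; linear_combination -u * hq'
      apply fin v
      · intro hgv
        refine stepNP hg huv hvu hgm ⟨?_, hgv⟩
        rw [hu]
        exact dvd_add (Dvd.intro_left _ rfl) (Dvd.dvd.mul_left hgv _)
      · intro hvg
        apply hvu
        rw [hu]
        exact dvd_add (Dvd.dvd.mul_left hvg _) (Dvd.intro_left _ rfl)
  · obtain ⟨p', hp'⟩ := (unit_of_not_mem hpm).exists_right_inv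
    have hv : v = p' * q * u - p' * g := by
      rw [hgdef]; linear_combination -v * hp'
    apply fin u
    · intro hgu'
      refine stepNP hg huv hvu hgm ⟨hgu', ?_⟩
      rw [hv]
      exact dvd_sub (Dvd.dvd.mul_left hgu' _) (Dvd.intro_left _ rfl)
    · intro hug
      apply huv
      rw [hv]
      exact dvd_sub (Dvd.intro_left _ rfl) (Dvd.dvd.mul_left hug _)

theorem artin {a b : R} (hab : ¬ a ∣ b) (hba : ¬ b ∣ a) : IsArtinianRing R := by
  have ham : a ∈ maximalIdeal R := mem_of_not_dvd hab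
  have hbm : b ∈ maximalIdeal R := mem_of_not_dvd hba
  have hm := hg a b hab hba
  have haa := Ideal.mul_mem_mul ham ham
  have hab2 := Ideal.mul_mem_mul ham hbm
  have hC : ∃ y₀ ∈ maximalIdeal R * maximalIdeal R,
      ∀ y ∈ maximalIdeal R * maximalIdeal R, y₀ ∣ y := by
    have key : ∀ y ∈ maximalIdeal R * maximalIdeal R, ∃ r s, y = r * (a * a) + s * (a * b) := by
      intro y hy
      obtain ⟨t, htm, ht⟩ := stepA hg hab hba hy
      rw [hm, Ideal.mem_span_pair] at htm
      obtain ⟨r, s, hrs⟩ := htm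
      exact ⟨r, s, by rw [ht, ← hrs]; ring⟩
    rcases stepB hg hab hba haa hab2 with h | h
    · refine ⟨a * a, haa, fun y hy => ?_⟩
      obtain ⟨r, s, rfl⟩ := key y hy
      exact dvd_add (Dvd.intro_left _ rfl) (Dvd.dvd.mul_left h _)
    · refine ⟨a * b, hab2, fun y hy => ?_⟩
      obtain ⟨r, s, rfl⟩ := key y hy
      exact dvd_add (Dvd.dvd.mul_left h _) (Dvd.intro_left _ rfl)
  obtain ⟨y₀, hy₀, hd⟩ := hC
  have hya := stepD hg hab hba hy₀ hd
  have hyb := stepD hg hba hab hy₀ hd
  have hym : ∀ x ∈ maximalIdeal R, y₀ * x = 0 := by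
    intro x hx
    rw [hm, Ideal.mem_span_pair] at hx
    obtain ⟨r, s, rfl⟩ := hx
    linear_combination r * hya + s * hyb
  have hcube : ∀ y ∈ maximalIdeal R * maximalIdeal R, ∀ x ∈ maximalIdeal R, y * x = 0 := by
    intro y hy x hx
    obtain ⟨c, rfl⟩ := hd y hy
    linear_combination c * hym x hx
  have hnoeth : IsNoetherianRing R := by
    apply IsNoetherianRing.of_prime
    intro I hI
    have hI1 : I ≤ maximalIdeal R := IsLocalRing.le_maximalIdeal hI.ne_top
    have hI2 : maximalIdeal R ≤ I := by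
      intro x hx
      have h0 : x * x * x ∈ I := by
        rw [hcube _ (Ideal.mul_mem_mul hx hx) x hx]
        exact I.zero_mem
      rcases hI.mem_or_mem h0 with h1 | h1
      · rcases hI.mem_or_mem h1 with h2 | h2 <;> exact h2
      · exact h1
    rw [le_antisymm hI1 hI2, hm]
    exact Submodule.fg_span (by simp : ({a, b} : Set R).Finite)
  rw [isArtinianRing_iff_isNilpotent_maximalIdeal]
  refine ⟨3, ?_⟩
  rw [pow_succ, pow_two, Ideal.zero_eq_bot, ← le_bot_iff]
  rw [Ideal.mul_le]
  intro y hy x hx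
  rw [hcube y hy x hx]
  exact Submodule.zero_mem _

end

theorem goalLRS : GoalLRS.{u} := by
  intro R _ _ _ hab hg
  obtain ⟨a, b, h1, h2⟩ := hab
  exact artin hg h1 h2

end Pool.Agent.Helper32.CR
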