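import Pool.Agent.Helper10.CR.Goals1

/-!
# Packet CR-QUOT: the quotient collapsing the intervals without a scheme
-/

universe u

namespace Pool.Agent.Helper32.CR

open Pool.Agent.Helper10.Width Pool.Agent.Helper72.Width Pool.Agent.Helper78.SD
open Pool.Agent.Helper10.CR

section

variable {L : Type u} [Lattice L]

theorem scheme_phi_le {φ ψ : List Bool → L} (h : Scheme φ ψ) (s : List Bool) : φ s ≤ φ [] := by
  induction s with
  | nil => exact le_rfl
  | cons i s ih => exact (h.phi_le i s).trans ih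

theorem scheme_le_psi {φ ψ : List Bool → L} (h : Scheme φ ψ) (s : List Bool) : ψ [] ≤ ψ s := by
  induction s with
  | nil => exact le_rfl
  | cons i s ih => exact ih.trans (h.psi_le i s)

theorem not_schemeIn_self (x : L) : ¬ SchemeIn x x := by
  rintro ⟨φ, ψ, h, h1, h2⟩
  exact absurd (h2.trans h1) (not_le_of_gt (h.lt []))

theorem schemeIn_mono {b b' a' a : L} (hb : b ≤ b') (ha : a' ≤ a) (h : SchemeIn b' a') :
    SchemeIn b a := by
  obtain ⟨φ, ψ, h, h1, h2⟩ := h
  exact ⟨φ, ψ, h, hb.trans h1, h2.trans ha⟩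

variable [IsModularLattice L]

theorem schemeIn_iff (x y : L) : SchemeIn (x ⊓ y) x ↔ SchemeIn y (x ⊔ y) := by
  constructor
  · rintro ⟨φ, ψ, h, h1, h2⟩
    have hφ : ∀ s, x ⊓ y ≤ φ s ∧ φ s ≤ x := fun s =>
      ⟨(h1.trans (scheme_le_psi h s)).trans (h.lt s).le, (scheme_phi_le h s).trans h2⟩
    have hψ : ∀ s, x ⊓ y ≤ ψ s ∧ ψ s ≤ x := fun s =>
      ⟨h1.trans (scheme_le_psi h s), (h.lt s).le.trans (hφ s).2⟩
    refine ⟨fun s => φ s ⊔ y, fun s => ψ s ⊔ y, ⟨?_, ?_, ?_, ?_⟩, le_sup_right,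
      sup_le_sup_right h2 y⟩
    · intro s
      exact sup_strictMonoOn_Icc_inf (a := x) (b := y) ⟨(hψ s).1, (hψ s).2⟩
        ⟨(hφ s).1, (hφ s).2⟩ (h.lt s)
    · intro i s
      exact sup_le_sup_right (h.phi_le i s) y
    · intro i s
      exact sup_le_sup_right (h.psi_le i s) y
    · intro i s
      have key : ∀ u v : L, u ≤ x → v ≤ x → x ⊓ y ≤ v → (u ⊔ y) ⊓ (v ⊔ y) ≤ (u ⊓ v) ⊔ y := by
        intro u v hu hv hyv
        have e1 : (y ⊔ u) ⊓ (v ⊔ y) = y ⊔ u ⊓ (v ⊔ y) :=
          sup_inf_assoc_of_le u le_sup_right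
        have e2 : (v ⊔ y) ⊓ x = v ⊔ y ⊓ x := sup_inf_assoc_of_le y hv
        have e3 : v ⊔ y ⊓ x = v := by
          rw [inf_comm y x]
          exact sup_eq_left.2 hyv
        have e4 : u ⊓ (v ⊔ y) ≤ u ⊓ v := by
          refine le_inf inf_le_left ?_
          have : u ⊓ (v ⊔ y) ≤ (v ⊔ y) ⊓ x := le_inf inf_le_right (inf_le_left.trans hu)
          rwa [e2, e3] at this
        rw [sup_comm u y, e1]
        exact sup_le le_sup_right (e4.trans le_sup_left)
      refine (key _ _ (hφ _).2 (hφ _).2 (hφ _).1).trans ?_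
      exact sup_le_sup_right (h.cap i s) y
  · rintro ⟨φ, ψ, h, h1, h2⟩
    have hφ : ∀ s, y ≤ φ s ∧ φ s ≤ x ⊔ y := fun s =>
      ⟨(h1.trans (scheme_le_psi h s)).trans (h.lt s).le, (scheme_phi_le h s).trans h2⟩
    have hψ : ∀ s, y ≤ ψ s ∧ ψ s ≤ x ⊔ y := fun s =>
      ⟨h1.trans (scheme_le_psi h s), (h.lt s).le.trans (hφ s).2⟩
    refine ⟨fun s => x ⊓ φ s, fun s => x ⊓ ψ s, ⟨?_, ?_, ?_, ?_⟩,
      inf_le_inf_left x h1, inf_le_left⟩
    · intro s
      exact inf_strictMonoOn_Icc_sup (a := x) (b := y) ⟨(hψ s).1, (hψ s).2⟩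
        ⟨(hφ s).1, (hφ s).2⟩ (h.lt s)
    · intro i s
      exact inf_le_inf_left x (h.phi_le i s)
    · intro i s
      exact inf_le_inf_left x (h.psi_le i s)
    · intro i s
      refine le_inf (inf_le_left.trans inf_le_left) ?_
      refine le_trans ?_ (h.cap i s)
      exact le_inf (inf_le_left.trans inf_le_right) (inf_le_right.trans inf_le_right)

/-- `x` is below `y` up to intervals without a scheme. -/
def rel (x y : L) : Prop := ¬ SchemeIn (x ⊓ y) x

theorem rel_of_le {x y : L} (h : x ≤ y) : rel x y := by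
  unfold rel
  rw [inf_eq_left.2 h]
  exact not_schemeIn_self x

theorem rel_trans (hc : GoalConcat.{u}) {x y z : L} (h : rel x y) (h' : rel y z) : rel x z := by
  intro hs
  have h1 : SchemeIn (x ⊓ y ⊓ z) x := schemeIn_mono
    (le_inf (inf_le_left.trans inf_le_left) inf_le_right) le_rfl hs
  rcases hc L _ (x ⊓ y) _ inf_le_left inf_le_left h1 with h2 | h2
  · have e : x ⊓ y ⊓ z = (x ⊓ y) ⊓ (y ⊓ z) := by
      apply le_antisymm
      · exact le_inf inf_le_left (le_inf (inf_le_left.trans inf_le_right) inf_le_right)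
      · exact le_inf inf_le_left (inf_le_right.trans inf_le_right)
    rw [e, schemeIn_iff] at h2
    exact h' (schemeIn_mono le_rfl (sup_le inf_le_right inf_le_left) h2)
  · exact h h2

theorem rel_inf (hc : GoalConcat.{u}) {x y z : L} (h : rel z x) (h' : rel z y) :
    rel z (x ⊓ y) := by
  intro hs
  rcases hc L _ (z ⊓ x) _ (inf_le_inf_left z inf_le_left) inf_le_left hs with h2 | h2
  · have e : z ⊓ (x ⊓ y) = (z ⊓ x) ⊓ (z ⊓ y) := by
      apply le_antisymm
      · exact le_inf (inf_le_inf_left z inf_le_left) (inf_le_inf_left z inf_le_right)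
      · exact le_inf (inf_le_left.trans inf_le_left)
          (le_inf (inf_le_left.trans inf_le_right) (inf_le_right.trans inf_le_right))
    rw [e, schemeIn_iff] at h2
    exact h' (schemeIn_mono le_rfl (sup_le inf_le_left inf_le_left) h2)
  · exact h h2

theorem rel_sup (hc : GoalConcat.{u}) {x y z : L} (h : rel x z) (h' : rel y z) :
    rel (x ⊔ y) z := by
  intro hs
  rw [schemeIn_iff] at hs
  rcases hc L _ (x ⊔ z) _ le_sup_right
    (sup_le (le_sup_left.trans le_sup_left) le_sup_right) hs with h2 | h2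
  · exact h ((schemeIn_iff x z).2 h2)
  · have e : x ⊔ y ⊔ z = (y ⊔ z) ⊔ (x ⊔ z) := by
      apply le_antisymm
      · exact sup_le (sup_le (le_sup_left.trans le_sup_right) (le_sup_left.trans le_sup_left))
          (le_sup_right.trans le_sup_left)
      · exact sup_le (sup_le (le_sup_right.trans le_sup_left) le_sup_right)
          (sup_le (le_sup_left.trans le_sup_left) le_sup_right)
    rw [e, ← schemeIn_iff] at h2
    have h3 : SchemeIn z (y ⊔ z) := schemeIn_mono (le_inf le_sup_right le_sup_right) le_rfl h2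
    exact h' ((schemeIn_iff y z).2 h3)

variable (L)

/-- The equivalence relation. -/
def qS (hc : GoalConcat.{u}) : Setoid L where
  r x y := rel x y ∧ rel y x
  iseqv :=
    { refl := fun x => ⟨rel_of_le le_rfl, rel_of_le le_rfl⟩
      symm := fun h => ⟨h.2, h.1⟩
      trans := fun h h' => ⟨rel_trans hc h.1 h'.1, rel_trans hc h'.2 h.2⟩ }

/-- The quotient. -/
def Qt (hc : GoalConcat.{u}) : Type u := Quotient (qS L hc)

variable {L}

/-- The quotient map. -/
def qf (hc : GoalConcat.{u}) (x : L) : Qt L hc := Quotient.mk (qS L hc) x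

theorem qf_eq {hc : GoalConcat.{u}} {x y : L} (h : rel x y) (h' : rel y x) :
    qf hc x = qf hc y := Quotient.sound ⟨h, h'⟩

/-- The order of the quotient. -/
def qle (hc : GoalConcat.{u}) : Qt L hc → Qt L hc → Prop :=
  Quotient.lift₂ (fun x y => rel x y) (fun _ _ _ _ h h' => propext
    ⟨fun hh => rel_trans hc h.2 (rel_trans hc hh h'.1),
      fun hh => rel_trans hc h.1 (rel_trans hc hh h'.2)⟩)

/-- The join of the quotient. -/
def qsup (hc : GoalConcat.{u}) : Qt L hc → Qt L hc → Qt L hc :=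
  Quotient.lift₂ (fun x y => qf hc (x ⊔ y)) (fun _ _ _ _ h h' => qf_eq
    (rel_sup hc (rel_trans hc h.1 (rel_of_le le_sup_left))
      (rel_trans hc h'.1 (rel_of_le le_sup_right)))
    (rel_sup hc (rel_trans hc h.2 (rel_of_le le_sup_left))
      (rel_trans hc h'.2 (rel_of_le le_sup_right))))

/-- The meet of the quotient. -/
def qinf (hc : GoalConcat.{u}) : Qt L hc → Qt L hc → Qt L hc :=
  Quotient.lift₂ (fun x y => qf hc (x ⊓ y)) (fun _ _ _ _ h h' => qf_eq
    (rel_inf hc (rel_trans hc (rel_of_le inf_le_left) h.1)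
      (rel_trans hc (rel_of_le inf_le_right) h'.1))
    (rel_inf hc (rel_trans hc (rel_of_le inf_le_left) h.2)
      (rel_trans hc (rel_of_le inf_le_right) h'.2)))

/-- The lattice structure of the quotient. -/
@[reducible] def qLat (hc : GoalConcat.{u}) : Lattice (Qt L hc) where
  le := qle hc
  sup := qsup hc
  inf := qinf hc
  le_refl := by
    rintro ⟨x⟩
    exact rel_of_le le_rfl
  le_trans := by
    rintro ⟨x⟩ ⟨y⟩ ⟨z⟩ h h'
    exact rel_trans hc h h'
  le_antisymm := by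
    rintro ⟨x⟩ ⟨y⟩ h h'
    exact qf_eq h h'
  le_sup_left := by
    rintro ⟨x⟩ ⟨y⟩
    exact rel_of_le le_sup_left
  le_sup_right := by
    rintro ⟨x⟩ ⟨y⟩
    exact rel_of_le le_sup_right
  sup_le := by
    rintro ⟨x⟩ ⟨y⟩ ⟨z⟩ h h'
    exact rel_sup hc h h'
  inf_le_left := by
    rintro ⟨x⟩ ⟨y⟩
    exact rel_of_le inf_le_left
  inf_le_right := by
    rintro ⟨x⟩ ⟨y⟩
    exact rel_of_le inf_le_right
  le_inf := by
    rintro ⟨x⟩ ⟨y⟩ ⟨z⟩ h h'
    exact rel_inf hc h h'

end

theorem goalQuotient : GoalQuotient.{u} := by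
  intro hc L _ _
  letI := qLat (L := L) hc
  have hmod : IsModularLattice (Qt L hc) := by
    refine ⟨?_⟩
    rintro ⟨x⟩ ⟨y⟩ ⟨z⟩ h
    have hxz : rel x z := h
    have e : qf hc z = qf hc (x ⊔ z) :=
      qf_eq (rel_of_le le_sup_right) (rel_sup hc hxz (rel_of_le le_rfl))
    show (qf hc x ⊔ qf hc y) ⊓ qf hc z ≤ qf hc x ⊔ (qf hc y ⊓ qf hc z)
    rw [e]
    show rel ((x ⊔ y) ⊓ (x ⊔ z)) (x ⊔ (y ⊓ (x ⊔ z)))
    exact rel_of_le (IsModularLattice.sup_inf_le_assoc_of_le y le_sup_left)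
  refine ⟨Qt L hc, qLat hc, hmod, qf hc, ?_, fun _ _ => rfl, fun _ _ => rfl, fun _ _ => Iff.rfl⟩
  rintro ⟨x⟩
  exact ⟨x, rfl⟩

end Pool.Agent.Helper32.CR
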