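import Pool.Agent.Helper88.CR.GoalsB

/-!
# Packet FR: the window
-/

set_option autoImplicit false

open Finset Filter Topology

open scoped Classical

namespace Pool.Agent.Helper32.CR

open Pool.Agent.Helper88.CR
open Pool.Agent.Helper88.PP (pr Rg om Sf SS uu vv ee LA VV QQ cost)
open Pool.Agent.Helper88.RR (gg ab TB WB nz DB VM)
open Pool.Agent.Helper88.GM (NI XI gB Sr In)
open Pool.Agent.Helper88.CG (tw pw th Wt Dt qE mE)

/-! ## The weight of the primes -/

theorem tw_bd (x n : ℕ) : 0 ≤ tw x n ∧ tw x n ≤ 1 := by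
  rw [tw]
  refine ⟨le_max_left _ _, max_le (by norm_num) ?_⟩
  have h1 : 0 ≤ |Real.log (4 * n / x)| / Real.log 4 :=
    div_nonneg (abs_nonneg _) (Real.log_nonneg (by norm_num))
  linarith

theorem tw_zero (x n : ℕ) (hx : 1 ≤ x) (hn : x ≤ n) : tw x n = 0 := by
  rw [tw]
  apply max_eq_left
  have hx' : (0 : ℝ) < x := by exact_mod_cast hx
  have hn' : (x : ℝ) ≤ n := by exact_mod_cast hn
  have h4 : 0 < Real.log 4 := Real.log_pos (by norm_num)
  have h1 : (4 : ℝ) ≤ 4 * n / x := by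
    rw [le_div_iff₀ hx']
    linarith
  have h2 : Real.log 4 ≤ Real.log (4 * n / x) := Real.log_le_log (by norm_num) h1
  have h3 : 1 ≤ |Real.log (4 * n / x)| / Real.log 4 := by
    rw [le_div_iff₀ h4, one_mul]
    exact h2.trans (le_abs_self _)
  linarith

theorem pw_le (x n : ℕ) (hx : 2 ≤ x) : pw x n ≤ if n.Prime then 1 else 0 := by
  rw [pw]
  split_ifs with hp
  · obtain ⟨h1, h2⟩ := tw_bd x n
    have hlx : 0 < Real.log x := Real.log_pos (by exact_mod_cast hx)
    have hln : 0 ≤ Real.log n := Real.log_nonneg (by exact_mod_cast hp.one_lt.le)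
    rcases le_or_gt x n with h | h
    · rw [tw_zero x n (by omega) h, zero_mul]
      norm_num
    · have h3 : Real.log n / Real.log x ≤ 1 := by
        rw [div_le_one hlx]
        exact Real.log_le_log (by exact_mod_cast hp.pos) (by exact_mod_cast h.le)
      calc tw x n * (Real.log n / Real.log x) ≤ 1 * 1 :=
            mul_le_mul h2 h3 (div_nonneg hln hlx.le) (by norm_num)
        _ = 1 := one_mul 1
  · norm_num

/-! ## The combinatorial part -/

/-- the number of the points `j` of `J` with `n + j` prime -/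
noncomputable def nj (J : Finset ℕ) (n : ℕ) : ℕ := (J.filter (fun j => (n + j).Prime)).card

theorem one_block (K : ℝ) (hK : 2 ≤ K) (N : ℕ) :
    (N : ℝ) - K * ((N : ℝ) * ((N : ℝ) - 1) / 2) ≤ 1 := by
  rcases Nat.eq_zero_or_pos N with rfl | h
  · norm_num
  · rcases Nat.lt_or_ge 1 N with h1 | h1
    · have h2 : (2 : ℝ) ≤ N := by exact_mod_cast h1
      have h3 : (N : ℝ) * ((N : ℝ) - 1) ≤ K * ((N : ℝ) * ((N : ℝ) - 1) / 2) := by
        have : 0 ≤ (N : ℝ) * ((N : ℝ) - 1) := by nlinarith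
        nlinarith
      nlinarith
    · have h2 : N = 1 := by omega
      subst h2
      norm_num

theorem pairs {S : Finset ℕ} {W : ℕ → ℝ} {J : Finset ℕ} {B : ℝ}
    (h : ∀ j ∈ J, ∀ j' ∈ J, j ≠ j' →
      ∑ n ∈ S.filter (fun n => (n + j).Prime ∧ (n + j').Prime), W n ≤ B) (hB : 0 ≤ B) :
    ∑ n ∈ S, W n * ((nj J n : ℝ) * ((nj J n : ℝ) - 1)) ≤ (J.card : ℝ) ^ 2 * B := by
  have h1 : ∀ n, ((nj J n : ℝ) * ((nj J n : ℝ) - 1)) =
      ∑ p ∈ J.offDiag, (if (n + p.1).Prime ∧ (n + p.2).Prime then (1 : ℝ) else 0) := by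
    intro n
    have h2 : (J.offDiag.filter (fun p => (n + p.1).Prime ∧ (n + p.2).Prime)) =
        (J.filter (fun j => (n + j).Prime)).offDiag := by
      ext p
      simp only [mem_filter, mem_offDiag]
      tauto
    rw [← sum_filter, h2, sum_const, offDiag_card, nsmul_eq_mul, mul_one, nj]
    have h3 : (J.filter (fun j => (n + j).Prime)).card ≤
        (J.filter (fun j => (n + j).Prime)).card * (J.filter (fun j => (n + j).Prime)).card :=
      Nat.le_mul_self _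
    rw [Nat.cast_sub h3]
    push_cast
    ring
  calc ∑ n ∈ S, W n * ((nj J n : ℝ) * ((nj J n : ℝ) - 1))
      = ∑ n ∈ S, ∑ p ∈ J.offDiag,
          (if (n + p.1).Prime ∧ (n + p.2).Prime then W n else 0) := by
        refine sum_congr rfl fun n _ => ?_
        rw [h1, mul_sum]
        refine sum_congr rfl fun p _ => ?_
        split_ifs <;> simp
    _ = ∑ p ∈ J.offDiag, ∑ n ∈ S.filter (fun n => (n + p.1).Prime ∧ (n + p.2).Prime), W n := by
        rw [sum_comm]
        refine sum_congr rfl fun p _ => ?_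
        rw [sum_filter]
    _ ≤ ∑ _p ∈ J.offDiag, B := by
        refine sum_le_sum fun p hp => ?_
        obtain ⟨h4, h5, h6⟩ := mem_offDiag.1 hp
        exact h p.1 h4 p.2 h5 h6
    _ = (J.offDiag.card : ℝ) * B := by rw [sum_const, nsmul_eq_mul]
    _ ≤ (J.card : ℝ) ^ 2 * B := by
        refine mul_le_mul_of_nonneg_right ?_ hB
        rw [offDiag_card]
        have h7 : J.card * J.card - J.card ≤ J.card * J.card := Nat.sub_le _ _
        calc ((J.card * J.card - J.card : ℕ) : ℝ) ≤ ((J.card * J.card : ℕ) : ℝ) := by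
              exact_mod_cast h7
          _ = (J.card : ℝ) ^ 2 := by push_cast; ring

theorem window {S : Finset ℕ} {W : ℕ → ℝ} (hW : ∀ n, 0 ≤ W n) {M s : ℕ} {J : ℕ → Finset ℕ}
    {f : ℕ → ℕ → ℝ} (hf : ∀ n j, f n j ≤ if (n + j).Prime then 1 else 0) {P : Finset ℕ}
    {K A₁ A₂ A₃ A₄ : ℝ} (hK : 2 ≤ K) (hJ : ∀ a < M, (J a).card = s)
    (h1 : ∀ a < M, ∀ j ∈ J a, A₁ ≤ ∑ n ∈ S, f n j * W n)
    (h2 : ∀ a < M, ∀ j ∈ J a, ∀ j' ∈ J a, j ≠ j' →
      ∑ n ∈ S.filter (fun n => (n + j).Prime ∧ (n + j').Prime), W n ≤ A₂)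
    (h3 : ∑ n ∈ S, W n ≤ A₃)
    (h4 : ∑ n ∈ S, W n * ((P.filter (fun h => (n + h).Prime)).card : ℝ) ≤ A₄) (hA₂ : 0 ≤ A₂)
    (hpos : 0 < M * (s * A₁ - K / 2 * (s ^ 2 * A₂)) - K * A₃ - M * A₄) :
    ∃ n ∈ S, (∀ h ∈ P, ¬ (n + h).Prime) ∧
      K < ∑ a ∈ range M, ((nj (J a) n : ℝ) -
        K * ((nj (J a) n : ℝ) * ((nj (J a) n : ℝ) - 1) / 2)) := by
  set br : ℕ → ℝ := fun n => ∑ a ∈ range M, (∑ j ∈ J a, f n j -
    K / 2 * ((nj (J a) n : ℝ) * ((nj (J a) n : ℝ) - 1))) - K -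
      M * ((P.filter (fun h => (n + h).Prime)).card : ℝ) with hbr
  have h5 : ∃ n ∈ S, 0 < br n := by
    by_contra hc
    push Not at hc
    have h6 : ∑ n ∈ S, W n * br n ≤ 0 :=
      sum_nonpos fun n hn => mul_nonpos_of_nonneg_of_nonpos (hW n) (hc n hn)
    have h7 : ∑ n ∈ S, W n * br n = ∑ a ∈ range M, (∑ j ∈ J a, ∑ n ∈ S, f n j * W n -
        K / 2 * ∑ n ∈ S, W n * ((nj (J a) n : ℝ) * ((nj (J a) n : ℝ) - 1))) -
        K * ∑ n ∈ S, W n -
        M * ∑ n ∈ S, W n * ((P.filter (fun h => (n + h).Prime)).card : ℝ) := by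
      have h8 : ∀ n, W n * br n = ∑ a ∈ range M, (∑ j ∈ J a, f n j * W n -
          K / 2 * (W n * ((nj (J a) n : ℝ) * ((nj (J a) n : ℝ) - 1)))) - K * W n -
          M * (W n * ((P.filter (fun h => (n + h).Prime)).card : ℝ)) := by
        intro n
        rw [hbr]
        simp only [mul_sub, mul_sum]
        congr 1
        · congr 1
          · refine sum_congr rfl fun a _ => ?_
            congr 1
            · exact sum_congr rfl fun j _ => by ring
            · ring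
          · ring
        · ring
      simp only [h8, sum_sub_distrib, mul_sum]
      congr 1
      congr 1
      congr 1
      · rw [sum_comm]
        exact sum_congr rfl fun a _ => sum_comm
      · rw [sum_comm]
    have h9 : ∀ a ∈ range M, (s : ℝ) * A₁ - K / 2 * (s ^ 2 * A₂) ≤
        ∑ j ∈ J a, ∑ n ∈ S, f n j * W n -
        K / 2 * ∑ n ∈ S, W n * ((nj (J a) n : ℝ) * ((nj (J a) n : ℝ) - 1)) := by
      intro a ha
      have ha' := mem_range.1 ha
      have h10 : (s : ℝ) * A₁ ≤ ∑ j ∈ J a, ∑ n ∈ S, f n j * W n := by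
        rw [← hJ a ha', ← nsmul_eq_mul, ← sum_const]
        exact sum_le_sum fun j hj => h1 a ha' j hj
      have h11 := pairs (W := W) (h2 a ha') hA₂
      rw [hJ a ha'] at h11
      have h12 : K / 2 * ∑ n ∈ S, W n * ((nj (J a) n : ℝ) * ((nj (J a) n : ℝ) - 1)) ≤
          K / 2 * (s ^ 2 * A₂) := mul_le_mul_of_nonneg_left h11 (by linarith only [hK])
      linarith only [h10, h12]
    have h13 := sum_le_sum h9
    rw [sum_const, card_range, nsmul_eq_mul] at h13
    have h14 : K * ∑ n ∈ S, W n ≤ K * A₃ := mul_le_mul_of_nonneg_left h3 (by linarith only [hK])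
    have h15 : (M : ℝ) * ∑ n ∈ S, W n * ((P.filter (fun h => (n + h).Prime)).card : ℝ) ≤ M * A₄ :=
      mul_le_mul_of_nonneg_left h4 (Nat.cast_nonneg _)
    rw [h7] at h6
    linarith only [hpos, h6, h13, h14, h15]
  obtain ⟨n, hn, h6⟩ := h5
  have h7 : ∀ a, ∑ j ∈ J a, f n j ≤ nj (J a) n := by
    intro a
    calc ∑ j ∈ J a, f n j ≤ ∑ j ∈ J a, (if (n + j).Prime then (1 : ℝ) else 0) :=
          sum_le_sum fun j _ => hf n j
      _ = nj (J a) n := by rw [nj, ← sum_filter, sum_const, nsmul_eq_mul, mul_one]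
  have h8 : ∑ a ∈ range M, (∑ j ∈ J a, f n j -
      K / 2 * ((nj (J a) n : ℝ) * ((nj (J a) n : ℝ) - 1))) ≤ ∑ a ∈ range M, ((nj (J a) n : ℝ) -
        K * ((nj (J a) n : ℝ) * ((nj (J a) n : ℝ) - 1) / 2)) := by
    refine sum_le_sum fun a _ => ?_
    have := h7 a
    have h9 : K / 2 * ((nj (J a) n : ℝ) * ((nj (J a) n : ℝ) - 1)) =
      K * ((nj (J a) n : ℝ) * ((nj (J a) n : ℝ) - 1) / 2) := by ring
    linarith only [this]
  have h9 : ∑ a ∈ range M, ((nj (J a) n : ℝ) -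
        K * ((nj (J a) n : ℝ) * ((nj (J a) n : ℝ) - 1) / 2)) ≤ M := by
    calc _ ≤ ∑ _a ∈ range M, (1 : ℝ) := sum_le_sum fun a _ => one_block K hK _
      _ = M := by rw [sum_const, card_range, nsmul_eq_mul, mul_one]
  have h10 : 0 ≤ (M : ℝ) * ((P.filter (fun h => (n + h).Prime)).card : ℝ) := by positivity
  rw [hbr] at h6
  simp only at h6
  refine ⟨n, hn, ?_, by linarith only [h6, h8, h10]⟩
  intro h hh hp
  have h11 : 1 ≤ ((P.filter (fun h => (n + h).Prime)).card : ℝ) := by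
    have : 0 < (P.filter (fun h => (n + h).Prime)).card :=
      card_pos.2 ⟨h, mem_filter.2 ⟨hh, hp⟩⟩
    exact_mod_cast this
  have h12 : (M : ℝ) ≤ M * ((P.filter (fun h => (n + h).Prime)).card : ℝ) := by
    have : (0 : ℝ) ≤ M := Nat.cast_nonneg _
    nlinarith only [hK, h6, h8, h9, h11]
  linarith only [hK, h6, h8, h9, h12]

/-! ## Numerical lemmas -/

theorem num1 {D₀ X o η c₂ T : ℝ} (hD : 1 ≤ D₀) (hX : 0 < X) (ho : 0 < o) (hη0 : 0 < η)
    (hη1 : η ≤ c₂ / 8) (_hc0 : 0 < c₂) (hc1 : c₂ ≤ 1) (h11 : c₂ * (X * o) ≤ T) :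
    X * D₀ * (c₂ / 2 * o) ≤ D₀ * ((1 - η) * T - η * (X * o)) := by
  have h14 : 0 ≤ 1 - η := by linarith
  have h15 := mul_le_mul_of_nonneg_left h11 h14
  have h17 : 0 < X * o := mul_pos hX ho
  have h18 : c₂ / 2 ≤ (1 - η) * c₂ - η := by nlinarith only [hη1, hη0, hc1]
  have h16 : c₂ / 2 * (X * o) ≤ ((1 - η) * c₂ - η) * (X * o) :=
    mul_le_mul_of_nonneg_right h18 h17.le
  have h19 : c₂ / 2 * (X * o) ≤ (1 - η) * T - η * (X * o) := by
    have h20 : ((1 - η) * c₂ - η) * (X * o) = (1 - η) * (c₂ * (X * o)) - η * (X * o) := by ring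
    linarith
  calc X * D₀ * (c₂ / 2 * o) = D₀ * (c₂ / 2 * (X * o)) := by ring
    _ ≤ _ := mul_le_mul_of_nonneg_left h19 (by linarith)

theorem num2 {D c₂ δ K CP s o η M : ℝ} (hD0 : 0 < D) (hc0 : 0 < c₂) (hδ0 : 0 < δ)
    (hKCP : 0 < K * CP) (hδK : K * CP * δ = c₂ / 8) (ht1 : δ ≤ s * o) (ht2 : s * o ≤ 2 * δ)
    (hη : η = c₂ * δ / 8) (hM1 : 1 ≤ M) (hM2 : 32 * K ≤ M * (δ * c₂)) (hK : 3 ≤ K) :
    0 < M * (s * (D * (c₂ / 2 * o)) - K / 2 * (s ^ 2 * (CP * D * o ^ 2))) -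
      K * (2 * D) - M * (η * D) := by
  have h9 : M * (s * (D * (c₂ / 2 * o)) - K / 2 * (s ^ 2 * (CP * D * o ^ 2))) -
      K * (2 * D) - M * (η * D) =
      D * (M * ((s * o) / 2 * (c₂ - K * CP * (s * o)) - η) - 2 * K) := by ring
  rw [h9]
  refine mul_pos hD0 ?_
  have h10 : K * CP * (s * o) ≤ c₂ / 4 := by
    have h11 : K * CP * (s * o) ≤ K * CP * (2 * δ) := mul_le_mul_of_nonneg_left ht2 hKCP.le
    linarith
  have h12 : δ / 2 * (3 * c₂ / 4) ≤ (s * o) / 2 * (c₂ - K * CP * (s * o)) := by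
    have h13 : δ / 2 ≤ (s * o) / 2 := by linarith
    have h14 : 3 * c₂ / 4 ≤ c₂ - K * CP * (s * o) := by linarith
    exact mul_le_mul h13 h14 (by positivity) (by linarith only [hδ0, ht1])
  have h15 : δ * c₂ / 4 ≤ (s * o) / 2 * (c₂ - K * CP * (s * o)) - η := by
    rw [hη]
    linarith
  have h16 : M * (δ * c₂ / 4) ≤ M * ((s * o) / 2 * (c₂ - K * CP * (s * o)) - η) :=
    mul_le_mul_of_nonneg_left h15 (by linarith only [hM1])
  linarith only [hM2, hK, h16]

/-! ## The theorem -/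

theorem om_nonneg (y z : ℕ) : 0 ≤ om y z := by
  rw [om]
  refine prod_nonneg fun p hp => ?_
  have hp' : p.Prime := (mem_filter.1 hp).2
  have h2 : (2 : ℝ) ≤ p := by exact_mod_cast hp'.two_le
  have h3 : 1 / (p : ℝ) ≤ 1 := by
    rw [div_le_one (by linarith)]
    linarith
  linarith

/-- The elementary inequalities for large `x`. -/
theorem large (ε : ℝ) (hε : 0 < ε) (w0 : ℕ) : ∃ x0 : ℕ, ∀ x : ℕ, x0 ≤ x →
    3 ≤ Real.log x ∧ Real.log (Real.log x) ≤ ε * Real.log x ∧ 64 * Real.log x + 64 ≤ x ∧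
    (w0 : ℝ) ≤ √(Real.log x) := by
  have hT : Tendsto (fun x : ℕ => Real.log x) atTop atTop :=
    Real.tendsto_log_atTop.comp tendsto_natCast_atTop_atTop
  have e1 : ∀ᶠ x : ℕ in atTop, 3 ≤ Real.log x := hT.eventually_ge_atTop 3
  have e2 : ∀ᶠ x : ℕ in atTop, Real.log (Real.log x) ≤ ε * Real.log x := by
    have h1 := hT.eventually (Real.isLittleO_log_id_atTop.bound hε)
    filter_upwards [h1, e1] with x h2 h3
    rw [id, Real.norm_eq_abs, Real.norm_eq_abs, abs_of_nonneg (by linarith : 0 ≤ Real.log x)] at h2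
    exact (le_abs_self _).trans h2
  have e3 : ∀ᶠ x : ℕ in atTop, 64 * Real.log x + 64 ≤ x := by
    have h1 := tendsto_natCast_atTop_atTop.eventually
      (Real.isLittleO_log_id_atTop.bound (by norm_num : (0 : ℝ) < 1 / 128))
    filter_upwards [h1, e1, eventually_ge_atTop 128] with x h2 h3 h4
    have h5 : (128 : ℝ) ≤ x := by exact_mod_cast h4
    rw [id, Real.norm_eq_abs, Real.norm_eq_abs, abs_of_nonneg (by linarith : 0 ≤ Real.log x),
      abs_of_nonneg (by linarith : (0 : ℝ) ≤ x)] at h2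
    linarith
  have e4 : ∀ᶠ x : ℕ in atTop, (w0 : ℝ) ≤ √(Real.log x) :=
    (Real.tendsto_sqrt_atTop.comp hT).eventually_ge_atTop _
  obtain ⟨x0, h⟩ := eventually_atTop.1 (e1.and (e2.and (e3.and e4)))
  exact ⟨x0, h⟩

theorem coprime_iff {n b q j : ℕ} (h : n % q = b) (hb : b < q) :
    Nat.Coprime (n + j) q ↔ Nat.Coprime (b + j) q := by
  have h1 : n + j ≡ b + j [MOD q] := by
    apply Nat.ModEq.add_right
    rw [Nat.ModEq, h, Nat.mod_eq_of_lt hb]
  rw [Nat.coprime_iff_gcd_eq_one, Nat.coprime_iff_gcd_eq_one, h1.gcd_eq]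

theorem fr (h1 : StmtLQ) (h2 : StmtKR) (h3 : StmtPQ) (h4 : StmtRC) (h5 : StmtPM) (h6 : StmtPJ)
    (h7 : Pool.Agent.Helper88.GM.StmtS1) (h8 : Pool.Agent.Helper88.CG.StmtVP) : StmtFR := by
  obtain ⟨cK, hcK, h2⟩ := h2
  obtain ⟨CP', hCP', E3, h3⟩ := h3
  obtain ⟨CR, hCR, h4⟩ := h4
  obtain ⟨A, hA, h5⟩ := h5
  obtain ⟨cJ, CJ, hcJ, hCJ, xJ, h6⟩ := h6
  obtain ⟨c1, hc1, E7, h7⟩ := h7
  obtain ⟨c8, hc8, E8, h8⟩ := h8
  have hA0 : 0 < A := by linarith only [hA]
  have hCR0 : 0 < CR := by linarith only [hCR]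
  set CP := max CP' 1 with hCP
  have hCP1 : 1 ≤ CP := le_max_right _ _
  set c₂ := min (cJ / A) 1 with hc₂
  have hc₂0 : 0 < c₂ := lt_min (div_pos hcJ hA0) one_pos
  have hc₂1 : c₂ ≤ 1 := min_le_right _ _
  set c₀ := min 1 (min cK (1 / 2) / (CR * A)) with hc₀
  have hm0 : 0 < min cK (1 / 2) := lt_min hcK (by norm_num)
  have hc₀0 : 0 < c₀ := lt_min one_pos (div_pos hm0 (mul_pos hCR0 hA0))
  have hc₀1 : c₀ ≤ 1 := min_le_left _ _
  have hc₀2 : CR * A * c₀ ≤ min cK (1 / 2) := by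
    have h : c₀ ≤ min cK (1 / 2) / (CR * A) := min_le_right _ _
    rw [le_div_iff₀ (mul_pos hCR0 hA0)] at h
    linarith only [h]
  set CM := 2304 * CP / c₂ ^ 2 + 1 with hCM
  have hCM0 : 0 < CM := by positivity
  refine ⟨c₀ / (CR * CM), by positivity, fun k hk => ?_⟩
  have hk1 : (1 : ℝ) ≤ k := by exact_mod_cast hk
  set K : ℝ := (k : ℝ) + 2 with hK
  have hK3 : 3 ≤ K := by linarith only [hk1]
  set δ := c₂ / (8 * K * CP) with hδ
  have h8KC : 0 < 8 * K * CP := by positivity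
  have hδ0 : 0 < δ := by positivity
  have hδ1 : δ ≤ 1 := by
    rw [hδ, div_le_one h8KC]
    have h9 : 1 ≤ K * CP := one_le_mul_of_one_le_of_one_le (by linarith only [hk1]) hCP1
    linarith only [hc₂1, h9]
  have hδK : K * CP * δ = c₂ / 8 := by
    rw [hδ]
    field_simp
  have hKCP : 0 < K * CP := by positivity
  set η := c₂ * δ / 8 with hη
  have hη0 : 0 < η := by positivity
  have hη1 : η ≤ c₂ / 8 := by
    rw [hη]
    have h9 : c₂ * δ ≤ c₂ := mul_le_of_le_one_right hc₂0.le hδ1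
    linarith only [h9]
  obtain ⟨E1, h1⟩ := h1 η hη0
  obtain ⟨E2, h2⟩ := h2 η hη0
  set M := ⌈32 * K / (δ * c₂)⌉₊ with hM
  have hM1 : 32 * K / (δ * c₂) ≤ M := Nat.le_ceil _
  have hMpos : 1 ≤ M := Nat.one_le_iff_ne_zero.2 (by
    rw [hM]
    exact (Nat.ceil_pos.2 (by positivity)).ne')
  have hMr : (1 : ℝ) ≤ M := by exact_mod_cast hMpos
  have hM2 : 32 * K ≤ M * (δ * c₂) := by
    rwa [div_le_iff₀ (by positivity)] at hM1
  have hM3 : (M : ℝ) ≤ CM * k ^ 2 := by
    have h9 : (M : ℝ) < 32 * K / (δ * c₂) + 1 := Nat.ceil_lt_add_one (by positivity)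
    have h10 : 32 * K / (δ * c₂) = 256 * K ^ 2 * CP / c₂ ^ 2 := by
      rw [hδ]
      field_simp
      ring
    have h11 : K ^ 2 ≤ 9 * (k : ℝ) ^ 2 := by
      have h15 : K ≤ 3 * k := by linarith only [hk1]
      have h16 := pow_le_pow_left₀ (by linarith only [hc₂1, hk1, hη0, hη1]) h15 2
      have h17 : (3 * (k : ℝ)) ^ 2 = 9 * (k : ℝ) ^ 2 := by ring
      linarith only [h16]
    have h12 : 256 * K ^ 2 * CP / c₂ ^ 2 ≤ 2304 * CP / c₂ ^ 2 * k ^ 2 := by
      rw [div_mul_eq_mul_div, div_le_div_iff_of_pos_right (by positivity)]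
      have h15 := mul_le_mul_of_nonneg_left h11 (show 0 ≤ 256 * CP by positivity)
      have h16 : 256 * CP * K ^ 2 = 256 * K ^ 2 * CP := by ring
      have h17 : 256 * CP * (9 * (k : ℝ) ^ 2) = 2304 * CP * (k : ℝ) ^ 2 := by ring
      linarith only [h15]
    have h13 : (1 : ℝ) ≤ (k : ℝ) ^ 2 := one_le_pow₀ hk1
    rw [h10] at h9
    have h14 : CM * (k : ℝ) ^ 2 = 2304 * CP / c₂ ^ 2 * (k : ℝ) ^ 2 + (k : ℝ) ^ 2 := by
      rw [hCM]
      ring
    linarith only [hk1, h9, h11, h12]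
  obtain ⟨w0, h4⟩ := h4 M hMpos
  obtain ⟨xP, h5⟩ := h5 (A + 1) CJ c₀ (max (max E1 E2) (max E3 (max E7 (max E8 2))))
    (by linarith only [hA, hc₂1, hη0, hη1]) hCJ hc₀0 hc₀1
  obtain ⟨xL, hL⟩ := large (δ / A) (by positivity) w0
  refine ⟨max xJ (max xP (max xL 2)), fun x hx => ?_⟩
  have hxJ : xJ ≤ x := (le_max_left _ _).trans hx
  have hxP : xP ≤ x := ((le_max_left _ _).trans (le_max_right _ _)).trans hx
  have hxL : xL ≤ x := (((le_max_left _ _).trans (le_max_right _ _)).trans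
    (le_max_right _ _)).trans hx
  have hx2 : 2 ≤ x := (((le_max_right _ _).trans (le_max_right _ _)).trans
    (le_max_right _ _)).trans hx
  obtain ⟨l1, l2, l3, l4⟩ := hL x hxL
  obtain ⟨E, z, w, y, hE0, hSr, hyz, hwx, hwC, hpQ, hyw, hyw4, hRec, hom, ho1, ho2, hBy⟩ :=
    h5 x hxP
  have hE1 : E1 ≤ E := ((le_max_left _ _).trans (le_max_left _ _)).trans hE0
  have hE2 : E2 ≤ E := ((le_max_right _ _).trans (le_max_left _ _)).trans hE0
  have hE3 : E3 ≤ E := ((le_max_left _ _).trans (le_max_right _ _)).trans hE0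
  have hE7 : E7 ≤ E := (((le_max_left _ _).trans (le_max_right _ _)).trans
    (le_max_right _ _)).trans hE0
  have hE8 : E8 ≤ E := ((((le_max_left _ _).trans (le_max_right _ _)).trans
    (le_max_right _ _)).trans (le_max_right _ _)).trans hE0
  have hE22 : 2 ≤ E := ((((le_max_right _ _).trans (le_max_right _ _)).trans
    (le_max_right _ _)).trans (le_max_right _ _)).trans hE0
  set L := Real.log x with hLdef
  have hL0 : 0 < L := by linarith only [hc₂1, hη0, hη1, l1]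
  have hlogL : 1 ≤ Real.log L := by
    have h9 : Real.exp 1 ≤ L := (Real.exp_one_lt_d9.le.trans (by norm_num)).trans l1
    calc (1 : ℝ) = Real.log (Real.exp 1) := (Real.log_exp 1).symm
      _ ≤ Real.log L := Real.log_le_log (Real.exp_pos 1) h9
  have hw0 : w0 ≤ w := by exact_mod_cast l4.trans hwx
  have hsq1 : 1 < √L := by
    rw [Real.lt_sqrt (by norm_num)]
    linarith only [hc₂1, hη0, hη1, l1]
  have hw1 : (1 : ℝ) < w := lt_of_lt_of_le hsq1 hwx
  have hwL : (w : ℝ) ≤ L := by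
    have h9 : (w : ℝ) ≤ w * Real.log L := le_mul_of_one_le_right (by linarith only [hc₂1, hη0, hη1, hwx, hsq1]) hlogL
    have h10 : (w : ℝ) * Real.log L ≤ CJ * (w * Real.log L) :=
      le_mul_of_one_le_left (by linarith only [hc₂1, hη0, hη1, hwx, hsq1, h9]) hCJ
    linarith only [hwC, h9, h10]
  set l := Real.log w with hl
  have hl0 : 0 < l := Real.log_pos hw1
  have hlL : l ≤ Real.log L := Real.log_le_log (by linarith only [hc₂1, hη0, hη1, hwx, hsq1]) hwL
  have hlL' : l ≤ L := by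
    have := Real.log_le_sub_one_of_pos (show (0 : ℝ) < w by linarith only [hc₂1, hη0, hη1, hwx, hsq1])
    linarith only [hc₂1, hη0, hη1, hwL, this]
  obtain ⟨p, hp, hpw, h6⟩ := h6 x w hxJ hwx hwC
  set q := primorial w / p with hq
  have hpd : p ∣ primorial w := hp.dvd_primorial_iff.2 hpw
  have hqd : q ∣ primorial w := Nat.div_dvd_of_dvd hpd
  have hq0 : 0 < q := Nat.div_pos (Nat.le_of_dvd (primorial_pos w) hpd) hp.pos
  have hqQ : q ∣ QQ x := hqd.trans hpQ
  set o := om y z / E with ho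
  have ho0 : 0 < o := lt_of_lt_of_le (by positivity) ho1
  have hoL : o ≤ δ := by
    refine ho2.trans ?_
    rw [div_le_iff₀ hL0]
    have h9 : A * l ≤ A * (δ / A * L) := mul_le_mul_of_nonneg_left (hlL.trans l2) hA0.le
    have h10 : A * (δ / A * L) = δ * L := by field_simp
    linarith only [h9, h10]
  set s := ⌈δ / o⌉₊ with hs
  have hs1 : δ / o ≤ s := Nat.le_ceil _
  have hs2 : (s : ℝ) < δ / o + 1 := Nat.ceil_lt_add_one (by positivity)
  have ht1 : δ ≤ s * o := by rwa [div_le_iff₀ ho0] at hs1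
  have ht2 : s * o ≤ 2 * δ := by
    have h9 : (s : ℝ) * o ≤ (δ / o + 1) * o := mul_le_mul_of_nonneg_right hs2.le ho0.le
    have h10 : (δ / o + 1) * o = δ + o := by field_simp
    linarith only [hoL, h9, h10]
  have hsy : (s : ℝ) ≤ y / l ^ 2 := by
    have h9 : δ / o ≤ A * L / l := by
      rw [div_le_div_iff₀ ho0 hl0]
      have h10 : l ≤ o * (A * L) := by rwa [div_le_iff₀ (by positivity)] at ho1
      have h11 : δ * l ≤ 1 * l := mul_le_mul_of_nonneg_right hδ1 hl0.le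
      have h12 : A * L * o = o * (A * L) := by ring
      linarith only [h10, h11]
    have h12 : 1 ≤ L / l := by
      rw [le_div_iff₀ hl0]
      linarith only [hlL']
    have h13 : (A + 1) * (L / l) ≤ y / l ^ 2 := by
      rw [le_div_iff₀ (by positivity)]
      have h14 : (A + 1) * (L / l) * l ^ 2 = (A + 1) * (L * l) := by field_simp
      rw [h14]
      exact hBy
    have h15 : A * L / l = A * (L / l) := by ring
    rw [h15] at h9
    linarith only [hs2, h9, h12, h13]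
  obtain ⟨b, hb, hcard, u, v, huv, hgap⟩ := h4 w p y s hw0 hp hpw hyw hyw4 hsy
  have hb' : b < q := hb
  set P := (Icc 1 y).filter (fun h => Nat.Coprime (b + h) q ∧ ∀ a < M, h ∉ Ioc (u a) (v a)) with hP
  have hPy : P ⊆ Icc 1 y := filter_subset _ _
  have homn := om_nonneg y z
  have hElog : 0 ≤ (E : ℝ) * Real.log E :=
    mul_nonneg (Nat.cast_nonneg _) (Real.log_nonneg (by exact_mod_cast (by omega : 1 ≤ E)))
  have hPc : (P.card : ℝ) * om y z ≤ min cK (1 / 2) * (E * Real.log E) := by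
    have h9 : (P.card : ℝ) ≤ CR * (y * Real.log l ^ 2 / (l ^ 2 * Real.log (Real.log l))) := by
      refine le_trans ?_ hcard
      exact_mod_cast card_le_card (fun h hh => by
        rw [hP, mem_filter] at hh
        exact mem_filter.2 ⟨hh.1, hh.2.1⟩)
    calc (P.card : ℝ) * om y z
        ≤ CR * (y * Real.log l ^ 2 / (l ^ 2 * Real.log (Real.log l))) * om y z :=
          mul_le_mul_of_nonneg_right h9 homn
      _ = CR * (y * Real.log l ^ 2 / (l ^ 2 * Real.log (Real.log l)) * om y z) := by ring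
      _ ≤ CR * (A * c₀ * (E * Real.log E)) := mul_le_mul_of_nonneg_left hom hCR0.le
      _ = CR * A * c₀ * (E * Real.log E) := by ring
      _ ≤ min cK (1 / 2) * (E * Real.log E) := mul_le_mul_of_nonneg_right hc₀2 hElog
  have hPK : (P.card : ℝ) * om y z ≤ cK * (E * Real.log E) :=
    hPc.trans (mul_le_mul_of_nonneg_right (min_le_left _ _) hElog)
  have hER : (2 : ℝ) ≤ E := by exact_mod_cast hE22
  have hlogE : Real.log E ≤ E := by
    have := Real.log_le_sub_one_of_pos (show (0 : ℝ) < E by linarith only [hc₂1, hη0, hη1, hER])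
    linarith only [hc₂1, hη0, hη1, this]
  have hPE : (P.card : ℝ) * om y z ≤ (E : ℝ) ^ 2 / 2 := by
    have h9 := hPc.trans (mul_le_mul_of_nonneg_right (min_le_right cK (1 / 2)) hElog)
    have h10 : (E : ℝ) * Real.log E ≤ E * E := mul_le_mul_of_nonneg_left hlogE (by linarith only [hc₂1, hη0, hη1, hER])
    have h11 : (E : ℝ) ^ 2 = E * E := sq (E : ℝ)
    rw [h11]
    linarith only [h9, h10]
  have hPE' : (P.card : ℝ) * om y z ≤ (E : ℝ) ^ 2 := by
    have := sq_nonneg (E : ℝ)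
    linarith only [hPE, this]
  set X := XI (x / 32) x q with hX
  have hX0 : 0 < X := by
    rw [hX, XI]
    have : 0 < x - x / 32 := by omega
    positivity
  obtain ⟨m1, m2, -, m4, -, m6⟩ := h8 E hE8
  have hz2 : 2 ≤ z := by
    have h9 : Real.exp E ≤ z := hSr.1
    have h10 : (E : ℝ) + 1 ≤ Real.exp E := Real.add_one_le_exp _
    have h11 : (2 : ℝ) ≤ z := by linarith only [hc₂1, hη0, hη1, hER, h9, h10]
    exact_mod_cast h11
  have hIn : In x (x / 32) x q b := ⟨hqQ, hb', by omega⟩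
  have hqm : qE E * mE E ≤ E / 16 := by
    refine le_trans (Nat.mul_le_mul_right _ ?_) m2
    exact Nat.le_self_pow (by norm_num) _
  have hcube : (E / 16 / mE E + 1) ^ 3 ≤ E := by
    refine le_trans ?_ m4
    generalize E / 16 / mE E = tt
    calc (tt + 1) ^ 3 ≤ (2 * (tt + 2)) ^ 3 := Nat.pow_le_pow_left (by omega) 3
      _ ≤ (2 * (tt + 2)) ^ 6 := Nat.pow_le_pow_right (by omega) (by norm_num)
  obtain ⟨n1, n2⟩ := h7 E z x y hE7 hSr (x / 32) x q b hIn (mE E) (qE E) m1 hqm (m6 z hz2).1 hcube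
    0 (by rw [zero_add]; exact hyz) P (by rw [zero_add, zero_add]; exact hPy) hPE'
  have hD1 : 1 ≤ Dt E z y P := n1
  set D := X * Dt E z y P with hD
  have hD0 : 0 < D := mul_pos hX0 (by linarith only [hc₂1, hη0, hη1, hD1])
  set S := NI (x / 32) x q b with hS
  have hS3 : ∑ n ∈ S, Wt E z y P n ^ 2 ≤ 2 * D := by
    have h9 := (abs_le.1 n2).2
    have h10 : Real.exp (-(c1 * E)) * X ≤ X := by
      have h11 : Real.exp (-(c1 * E)) ≤ 1 := Real.exp_le_one_iff.2 (by
        have : 0 ≤ c1 * E := by positivity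
        linarith only [this])
      exact mul_le_of_le_one_left hX0.le h11
    have h12 : X ≤ D := by
      rw [hD]
      exact le_mul_of_one_le_right hX0.le hD1
    have h13 : ∑ n ∈ S, Wt E z y P n ^ 2 - D ≤ Real.exp (-(c1 * E)) * X := h9
    linarith only [h10, h12, h13]
  set J : ℕ → Finset ℕ := fun a => (Ioc (u a) (v a)).filter (fun h => Nat.Coprime (b + h) q)
    with hJ
  have hJy : ∀ a < M, ∀ j ∈ J a, j ∈ Icc 1 y ∧ j ∉ P ∧ Nat.Coprime (b + j) q := by
    intro a ha j hj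
    obtain ⟨h9, h10⟩ := mem_filter.1 hj
    obtain ⟨h11, h12, -⟩ := huv a ha
    have h13 := mem_Ioc.1 h9
    refine ⟨mem_Icc.2 ⟨by omega, by omega⟩, fun h14 => ?_, h10⟩
    rw [hP, mem_filter] at h14
    exact h14.2.2 a ha h9
  have hyL : (y : ℝ) ≤ L ^ 2 := hSr.2.2.2.2.1
  have hL3 : (y : ℝ) ≤ L ^ 3 :=
    hyL.trans (pow_le_pow_right₀ (by linarith only [hc₂1, hη0, hη1, l1]) (by norm_num))
  obtain ⟨n, hnS, hn1, hn2⟩ := window (S := S) (W := fun n => Wt E z y P n ^ 2)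
    (fun n => sq_nonneg _) (M := M) (s := s) (J := J) (f := fun n j => pw x (n + j))
    (fun n j => pw_le x (n + j) hx2) (P := P) (K := K) (A₁ := D * (c₂ / 2 * o))
    (A₂ := CP * D * o ^ 2) (A₃ := 2 * D) (A₄ := η * D) (by linarith only [hc₂1, hk1, hη0, hη1])
    (fun a ha => (huv a ha).2.2)
    (fun a ha j hj => by
      obtain ⟨j1, j2, j3⟩ := hJy a ha j hj
      have h9 := h1 E z x y hE1 hSr q b hqQ hb' P hPy hPE j j1 j2
      have h10 := h6 b j hb' (le_trans (by exact_mod_cast (mem_Icc.1 j1).2) hL3) j3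
      refine le_trans ?_ h9
      have h11 : c₂ * (X * o) ≤ ∑ n ∈ S, pw x (n + j) := by
        refine le_trans ?_ h10
        have h12 : o / A ≤ l / L := by
          rw [div_le_div_iff₀ hA0 hL0]
          rw [le_div_iff₀ hL0] at ho2
          linarith only [ho2]
        have h13 : c₂ ≤ cJ / A := min_le_left _ _
        calc c₂ * (X * o) ≤ cJ / A * (X * o) :=
              mul_le_mul_of_nonneg_right h13 (by positivity)
          _ = cJ * (X * (o / A)) := by ring
          _ ≤ cJ * (X * (l / L)) :=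
              mul_le_mul_of_nonneg_left (mul_le_mul_of_nonneg_left h12 hX0.le) hcJ.le
      exact num1 hD1 hX0 ho0 hη0 hη1 hc₂0 hc₂1 h11)
    (fun a ha j hj j' hj' hne => by
      obtain ⟨j1, j2, -⟩ := hJy a ha j hj
      obtain ⟨j1', j2', -⟩ := hJy a ha j' hj'
      refine (h3 E z x y hE3 hSr q b hqQ hb' P hPy hPE j j1 j' j1' j2 j2' hne).trans ?_
      have h9 : CP' ≤ CP := le_max_left _ _
      have h10 : CP' * D ≤ CP * D := mul_le_mul_of_nonneg_right h9 hD0.le
      exact mul_le_mul_of_nonneg_right h10 (sq_nonneg o))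
    hS3 (h2 E z x y hE2 hSr q b hqQ hb' P hPy hPK)
    (mul_nonneg (mul_nonneg (zero_le_one.trans hCP1) hD0.le) (sq_nonneg o))
    (num2 hD0 hc₂0 hδ0 hKCP hδK ht1 ht2 hη hMr hM2 hK3)
  have hnI : n ∈ (Ioc (x / 32) x).filter (fun n => n % q = b) := hnS
  obtain ⟨hn3, hn4⟩ := mem_filter.1 hnI
  obtain ⟨hn5, hn6⟩ := mem_Ioc.1 hn3
  have hx32 : w + 2 ≤ x / 32 := by
    have h9 : ((32 * (w + 2) : ℕ) : ℝ) ≤ x := by
      push_cast
      linarith only [hc₂1, hη0, hη1, l1, l3, hwL]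
    have h10 : 32 * (w + 2) ≤ x := by exact_mod_cast h9
    omega
  have hcop : ∀ j, (n + j).Prime → Nat.Coprime (b + j) q := by
    intro j hj
    rw [← coprime_iff hn4 hb']
    rw [Nat.Prime.coprime_iff_not_dvd hj]
    intro h9
    have h10 := hj.dvd_primorial_iff.1 (h9.trans hqd)
    omega
  refine ⟨n, y, M, u, v, by omega, hn6, hyL, fun a ha => ⟨(huv a ha).1, (huv a ha).2.1⟩, ?_, ?_, ?_⟩
  · intro a ha
    refine le_trans ?_ (hgap a ha)
    have h9 : c₀ / (CR * CM) / (k : ℝ) ^ 2 * Rec x ≤ y / (CR * M) := by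
      have h10 : c₀ / (CR * CM) / (k : ℝ) ^ 2 * Rec x = c₀ * Rec x / (CR * (CM * k ^ 2)) := by
        field_simp
      rw [h10]
      have h11 : c₀ * Rec x / (CR * (CM * k ^ 2)) ≤ y / (CR * (CM * k ^ 2)) :=
        div_le_div_of_nonneg_right hRec (by positivity)
      have h12 : (y : ℝ) / (CR * (CM * k ^ 2)) ≤ y / (CR * M) :=
        div_le_div_of_nonneg_left (Nat.cast_nonneg _) (by positivity)
          (mul_le_mul_of_nonneg_left hM3 hCR0.le)
      linarith only [h11, h12]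
    linarith only [h9]
  · intro h hh hblk hpr
    exact hn1 h (by
      rw [hP, mem_filter]
      exact ⟨hh, hcop h hpr, hblk⟩) hpr
  · have h9 : ∀ a, nj (J a) n = ((Ioc (u a) (v a)).filter (fun j => (n + j).Prime)).card := by
      intro a
      rw [nj]
      congr 1
      ext j
      simp only [hJ, mem_filter]
      constructor
      · rintro ⟨⟨h10, -⟩, h11⟩
        exact ⟨h10, h11⟩
      · rintro ⟨h10, h11⟩
        exact ⟨⟨h10, hcop j h11⟩, h11⟩
    simp only [h9] at hn2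
    exact hn2

end Pool.Agent.Helper32.CR
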