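import Pool.Agent.Helper39.CR.GoalsT
import Pool.Agent.Helper36.CAR.HOMR
import Pool.Agent.Helper49.CAR.HOMS

/-!
# Project CAR, stage 3, packet CAR3-TNULL: two explicit homotopies
-/

set_option autoImplicit false

open scoped ComplexOrder ZeroAtInfty
open Filter Topology

namespace Pool.Agent.Helper32.CR

open Pool.Agent.Helper34.CAR Pool.Agent.Helper36.CAR Pool.Agent.Helper49.CAR

section

variable (E : Type) [NonUnitalCStarAlgebra E]

theorem kP_zero (f : C₀(ℝ, E)) (t : ℝ) : kP E 0 f t = f |t| := by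
  rw [kP_apply, add_zero]

theorem kM_zero (f : C₀(ℝ, E)) (t : ℝ) : kM E 0 f t = f (-|t|) := by
  rw [kM_apply, sub_zero]

/-- The rotation by the angle `a`. -/
noncomputable def rt (a : ℝ) : C₀(ℝ, E) →⋆ₙₐ[ℂ] Mt (Fin 2) (Unitization ℂ C₀(ℝ, E)) :=
  rotHom (P := kP E 0) (M := kM E 0) (kP_zero E) (kM_zero E) (sin_cos_rel a)

theorem rt_zero (f : C₀(ℝ, E)) : rt E 0 f = dX (flip E f) f := by
  refine Mt.ext fun i j => ?_
  unfold rt
  rw [rotHom_apply]
  simp only [Real.sin_zero, Real.cos_zero, dX, Mt.dg, Mt.add_apply, Mt.single_apply]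
  fin_cases i <;> fin_cases j <;> simp [rotE]

theorem rt_one (f : C₀(ℝ, E)) : rt E (Real.pi / 2) f = dX (kP E 0 f) (kM E 0 f) := by
  have hP := kP_zero E
  have hM := kM_zero E
  have e0 : flip E f - rotW (kP E 0) (kM E 0) f = kP E 0 f := by
    ext t
    show f (-t) - rotW (kP E 0) (kM E 0) f t = kP E 0 f t
    rcases le_total 0 t with ht | ht
    · rw [rotW_pos hP hM f ht, hP, abs_of_nonneg ht]
      abel
    · rw [rotW_neg hP hM f ht, hP, abs_of_nonpos ht, sub_zero]
  have e1 : f + rotW (kP E 0) (kM E 0) f = kM E 0 f := by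
    ext t
    show f t + rotW (kP E 0) (kM E 0) f t = kM E 0 f t
    rcases le_total 0 t with ht | ht
    · rw [rotW_pos hP hM f ht, hM, abs_of_nonneg ht]
      abel
    · rw [rotW_neg hP hM f ht, hM, abs_of_nonpos ht, neg_neg, add_zero]
  refine Mt.ext fun i j => ?_
  unfold rt
  rw [rotHom_apply]
  simp only [Real.sin_pi_div_two, Real.cos_pi_div_two, dX, Mt.dg, Mt.add_apply,
    Mt.single_apply]
  fin_cases i <;> fin_cases j <;> simp [rotE, e0, e1]

theorem rt_cont (f : C₀(ℝ, E)) : Continuous fun a => rt E a f := by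
  rw [continuous_iff_continuousAt]
  intro b
  rw [ContinuousAt, tendsto_iff_norm_sub_tendsto_zero]
  have h1 : Continuous fun a : ℝ => (2 * |Real.sin a ^ 2 - Real.sin b ^ 2| +
      2 * |Real.cos a * Real.sin a - Real.cos b * Real.sin b|) *
        ‖rotW (kP E 0) (kM E 0) f‖ := by fun_prop
  have h2 := h1.tendsto b
  simp only [sub_self, abs_zero, mul_zero, add_zero, zero_mul] at h2
  exact squeeze_zero (fun a => norm_nonneg _)
    (fun a => rotHom_norm (kP_zero E) (kM_zero E) (sin_cos_rel a) (sin_cos_rel b) f) h2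

/-- The shift by `u`. -/
noncomputable def sh (u : ℝ) : C₀(ℝ, E) →⋆ₙₐ[ℂ] Mt (Fin 2) (Unitization ℂ C₀(ℝ, E)) :=
  dHom (kP E u) (kM E u)

theorem sh_cont (f : C₀(ℝ, E)) : Continuous fun u => sh E u f := by
  rw [Metric.continuous_iff]
  intro b ε hε
  obtain ⟨δ, hδ, h⟩ := exists_unif E {f} (ε / 4) (by positivity)
  refine ⟨δ, hδ, fun a ha => ?_⟩
  rw [Real.dist_eq] at ha
  have hf := h f (Finset.mem_singleton_self f)
  rw [dist_eq_norm]
  unfold sh
  rw [dHom_apply, dHom_apply, dX_sub]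
  refine lt_of_le_of_lt (norm_dX_le _ _) ?_
  have h1 : ‖kP E a f - kP E b f‖ ≤ ε / 4 := by
    refine norm_le_c0 E (by positivity) fun t => ?_
    show ‖f (|t| + a) - f (|t| + b)‖ ≤ ε / 4
    refine hf _ _ ?_
    have e : |t| + a - (|t| + b) = a - b := by ring
    rwa [e]
  have h2 : ‖kM E a f - kM E b f‖ ≤ ε / 4 := by
    refine norm_le_c0 E (by positivity) fun t => ?_
    show ‖f (-|t| - a) - f (-|t| - b)‖ ≤ ε / 4
    refine hf _ _ ?_
    have e : -|t| - a - (-|t| - b) = -(a - b) := by ring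
    rwa [e, abs_neg]
  linarith

theorem sh_far (f : C₀(ℝ, E)) (ε : ℝ) (hε : 0 < ε) :
    ∃ U : ℝ, 0 ≤ U ∧ ∀ u : ℝ, U ≤ u → ‖sh E u f‖ < ε := by
  obtain ⟨U, hU, h⟩ := exists_far E f (ε / 4) (by positivity)
  refine ⟨U, hU, fun u hu => ?_⟩
  unfold sh
  rw [dHom_apply]
  refine lt_of_le_of_lt (norm_dX_le _ _) ?_
  have h1 : ‖kP E u f‖ ≤ ε / 4 := by
    refine norm_le_c0 E (by positivity) fun t => ?_
    rw [kP_apply]
    refine h _ ?_
    rw [abs_of_nonneg (by linarith [abs_nonneg t])]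
    linarith [abs_nonneg t]
  have h2 : ‖kM E u f‖ ≤ ε / 4 := by
    refine norm_le_c0 E (by positivity) fun t => ?_
    rw [kM_apply]
    refine h _ ?_
    have e2 : -|t| - u = -(|t| + u) := by ring
    rw [e2, abs_neg, abs_of_nonneg (by linarith [abs_nonneg t])]
    linarith [abs_nonneg t]
  linarith

end

open Classical in
/-- The second homotopy. -/
noncomputable def hm (E : Type) [NonUnitalCStarAlgebra E] (t : ℝ) :
    C₀(ℝ, E) →⋆ₙₐ[ℂ] Mt (Fin 2) (Unitization ℂ C₀(ℝ, E)) :=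
  if t < 1 then sh E (t / (1 - t)) else 0

theorem hm_cont (E : Type) [NonUnitalCStarAlgebra E] (f : C₀(ℝ, E)) :
    Continuous fun t : unitInterval => hm E (t : ℝ) f := by
  rw [continuous_iff_continuousAt]
  intro s
  by_cases hs : (s : ℝ) < 1
  · have h1 : ContinuousAt (fun t : unitInterval => sh E ((t : ℝ) / (1 - t)) f) s := by
      refine (sh_cont E f).continuousAt.comp ?_
      have h2 : ContinuousAt (fun t : unitInterval => (t : ℝ)) s :=
        continuous_subtype_val.continuousAt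
      exact h2.div (continuousAt_const.sub h2) (by linarith)
    refine h1.congr ?_
    have h3 : ∀ᶠ t : unitInterval in 𝓝 s, (t : ℝ) < 1 :=
      continuous_subtype_val.continuousAt.eventually (gt_mem_nhds hs)
    filter_upwards [h3] with t ht
    unfold hm
    rw [if_pos ht]
  · have hs1 : (s : ℝ) = 1 := le_antisymm s.2.2 (not_lt.1 hs)
    rw [Metric.continuousAt_iff']
    intro ε hε
    obtain ⟨U, hU, h⟩ := sh_far E f ε hε
    have h0 : hm E (s : ℝ) f = 0 := by
      unfold hm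
      rw [if_neg hs]
      rfl
    have h3 : ∀ᶠ t : unitInterval in 𝓝 s, U * (1 - (t : ℝ)) < t := by
      have h4 : ContinuousAt (fun t : unitInterval => (t : ℝ) - U * (1 - (t : ℝ))) s := by
        fun_prop
      have h5 : ∀ᶠ t : unitInterval in 𝓝 s, 0 < (t : ℝ) - U * (1 - (t : ℝ)) := by
        refine h4.eventually (lt_mem_nhds ?_)
        show 0 < (s : ℝ) - U * (1 - (s : ℝ))
        rw [hs1]
        norm_num
      filter_upwards [h5] with t ht
      linarith
    filter_upwards [h3] with t ht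
    rw [h0, dist_zero_right]
    unfold hm
    by_cases ht1 : (t : ℝ) < 1
    · rw [if_pos ht1]
      refine h _ ?_
      rw [le_div_iff₀ (by linarith)]
      exact ht.le
    · rw [if_neg ht1]
      have e : (0 : C₀(ℝ, E) →⋆ₙₐ[ℂ] Mt (Fin 2) (Unitization ℂ C₀(ℝ, E))) f = 0 := rfl
      rw [e, norm_zero]
      exact hε

/-- Packet CAR3-TNULL. -/
theorem tnull : Pool.Agent.Helper39.CR.S_TNULL := by
  intro E _
  refine ⟨fun t => rt E (Real.pi / 2 * (t : ℝ)), fun t => hm E (t : ℝ), ?_, ?_, ?_, ?_, ?_⟩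
  · intro f
    exact (rt_cont E f).comp (continuous_const.mul continuous_subtype_val)
  · intro f
    exact hm_cont E f
  · intro f
    show rt E (Real.pi / 2 * ((0 : unitInterval) : ℝ)) f = _
    rw [Set.Icc.coe_zero, mul_zero, rt_zero]
  · intro f
    show rt E (Real.pi / 2 * ((1 : unitInterval) : ℝ)) f = hm E ((0 : unitInterval) : ℝ) f
    rw [Set.Icc.coe_one, mul_one, rt_one, Set.Icc.coe_zero]
    unfold hm
    rw [if_pos zero_lt_one, zero_div]
    rfl
  · intro f
    show hm E ((1 : unitInterval) : ℝ) f = 0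
    rw [Set.Icc.coe_one]
    unfold hm
    rw [if_neg (lt_irrefl 1)]
    rfl

end Pool.Agent.Helper32.CR
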