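import Pool.Agent.Helper85.CR.Goals

set_option autoImplicit false
set_option linter.unusedSectionVars false

namespace Pool.Agent.Helper32.CR

open Pool.Agent.Helper85.CR

theorem ker1 {f : Fin 4 → Fin 4} (h : Pat1 f) (i j : Fin 4) :
    f i = f j ↔ (i = j ∨ (i = 0 ∧ j = 2) ∨ (i = 2 ∧ j = 0)) := by
  obtain ⟨h1, h2, h3, h4⟩ := h
  have h5 : f 1 ≠ f 0 := h3.symm
  have h6 : f 3 ≠ f 0 := h4.symm
  have h7 : f 3 ≠ f 1 := h2.symm
  rw [h1] at h3 h4 h5 h6
  match i, j with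
  | 0, 0 => simp
  | 0, 1 => simp_all
  | 0, 2 => simp_all
  | 0, 3 => simp_all
  | 1, 0 => simp_all
  | 1, 1 => simp
  | 1, 2 => simp_all
  | 1, 3 => simp_all
  | 2, 0 => simp_all
  | 2, 1 => simp_all
  | 2, 2 => simp
  | 2, 3 => simp_all
  | 3, 0 => simp_all
  | 3, 1 => simp_all
  | 3, 2 => simp_all
  | 3, 3 => simp

theorem ker2 {f : Fin 4 → Fin 4} (h : Pat2 f) (i j : Fin 4) :
    f i = f j ↔ (i = j ∨ (i = 1 ∧ j = 3) ∨ (i = 3 ∧ j = 1)) := by
  obtain ⟨h1, h2, h3, h4⟩ := h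
  have h5 : f 0 ≠ f 1 := h3.symm
  have h6 : f 2 ≠ f 1 := h4.symm
  have h7 : f 2 ≠ f 0 := h2.symm
  rw [h1] at h3 h4 h5 h6
  match i, j with
  | 0, 0 => simp
  | 0, 1 => simp_all
  | 0, 2 => simp_all
  | 0, 3 => simp_all
  | 1, 0 => simp_all
  | 1, 1 => simp
  | 1, 2 => simp_all
  | 1, 3 => simp_all
  | 2, 0 => simp_all
  | 2, 1 => simp_all
  | 2, 2 => simp
  | 2, 3 => simp_all
  | 3, 0 => simp_all
  | 3, 1 => simp_all
  | 3, 2 => simp_all
  | 3, 3 => simp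

theorem kerE {i : Fin 4} {f : Fin 4 → Fin 4} (h : PatE i f) (j k : Fin 4) :
    f (i + j) = f (i + k) ↔ (j = k ∨ (j = 0 ∧ k = 1) ∨ (j = 1 ∧ k = 0)) := by
  obtain ⟨h1, h2, h3, h4⟩ := h
  have h5 : f (i + 2) ≠ f i := h3.symm
  have h6 : f (i + 3) ≠ f i := h4.symm
  have h7 : f (i + 3) ≠ f (i + 2) := h2.symm
  rw [h1] at h3 h4 h5 h6
  have h0 : f (i + 0) = f (i + 1) := by rw [add_zero, h1]
  have h1' := h0.symm
  clear h1
  match j, k with
  | 0, 0 => simp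
  | 0, 1 => simp only [h0]; simp
  | 0, 2 => simp only [h0, h3]; simp
  | 0, 3 => simp only [h0, h4]; simp
  | 1, 0 => simp only [h0]; simp
  | 1, 1 => simp
  | 1, 2 => simp only [h3]; simp
  | 1, 3 => simp only [h4]; simp
  | 2, 0 => simp only [h0, h5]; simp
  | 2, 1 => simp only [h5]; simp
  | 2, 2 => simp
  | 2, 3 => simp only [h2]; simp
  | 3, 0 => simp only [h0, h6]; simp
  | 3, 1 => simp only [h6]; simp
  | 3, 2 => simp only [h7]; simp
  | 3, 3 => simp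

theorem ker11 {f g : Fin 4 → Fin 4} (hf : Pat1 f) (hg : Pat1 g) (i j : Fin 4) :
    f i = f j ↔ g i = g j := (ker1 hf i j).trans (ker1 hg i j).symm

theorem ker22 {f g : Fin 4 → Fin 4} (hf : Pat2 f) (hg : Pat2 g) (i j : Fin 4) :
    f i = f j ↔ g i = g j := (ker2 hf i j).trans (ker2 hg i j).symm

theorem kerEE {k : Fin 4} {f g : Fin 4 → Fin 4} (hf : PatE k f) (hg : PatE k g) (i j : Fin 4) :
    f i = f j ↔ g i = g j := by
  have h1 := (kerE hf (i - k) (j - k)).trans (kerE hg (i - k) (j - k)).symm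
  simpa using h1

theorem perm1 {f : Fin 4 → Fin 4} (π : Equiv.Perm (Fin 4)) (h : Pat1 f) :
    Pat1 (fun i => π (f i)) := by
  obtain ⟨h1, h2, h3, h4⟩ := h
  exact ⟨congrArg π h1, π.injective.ne h2, π.injective.ne h3, π.injective.ne h4⟩

theorem perm2 {f : Fin 4 → Fin 4} (π : Equiv.Perm (Fin 4)) (h : Pat2 f) :
    Pat2 (fun i => π (f i)) := by
  obtain ⟨h1, h2, h3, h4⟩ := h
  exact ⟨congrArg π h1, π.injective.ne h2, π.injective.ne h3, π.injective.ne h4⟩

theorem permE {k : Fin 4} {f : Fin 4 → Fin 4} (π : Equiv.Perm (Fin 4)) (h : PatE k f) :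
    PatE k (fun i => π (f i)) := by
  obtain ⟨h1, h2, h3, h4⟩ := h
  exact ⟨congrArg π h1, π.injective.ne h2, π.injective.ne h3, π.injective.ne h4⟩

section
variable {V : Type} {G : SimpleGraph V} {ρ : Fin 4 → V} {t : ℕ} {up : Fin 4 → Fin t → Bool}
  {nn : Fin t → Fin t → Bool} {ι : Fin 4 → Fin t}

theorem adj_ll (u v : V) : (ext G ρ up nn).Adj (Sum.inl u) (Sum.inl v) ↔ G.Adj u v := by
  unfold ext
  rw [SimpleGraph.fromRel_adj]
  constructor
  · rintro ⟨_, h | h⟩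
    · exact h
    · exact h.symm
  · intro h
    exact ⟨fun e => h.ne (Sum.inl_injective e), Or.inl h⟩

theorem adj_lr (u : V) (j : Fin t) :
    (ext G ρ up nn).Adj (Sum.inl u) (Sum.inr j) ↔ ∃ i, ρ i = u ∧ up i j = true := by
  unfold ext
  rw [SimpleGraph.fromRel_adj]
  constructor
  · rintro ⟨_, h | h⟩
    · exact h
    · exact h.elim
  · intro h
    exact ⟨Sum.inl_ne_inr, Or.inl h⟩

theorem adj_rr (i j : Fin t) :
    (ext G ρ up nn).Adj (Sum.inr i) (Sum.inr j) ↔ i ≠ j ∧ (nn i j = true ∨ nn j i = true) := by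
  unfold ext
  rw [SimpleGraph.fromRel_adj]
  constructor
  · rintro ⟨h0, h⟩
    exact ⟨fun e => h0 (by rw [e]), h⟩
  · rintro ⟨h0, h⟩
    exact ⟨fun e => h0 (Sum.inr_injective e), h⟩

theorem lay_lr (i : Fin 4) (j : Fin t) :
    (lay up nn).Adj (Sum.inl i) (Sum.inr j) ↔ up i j = true := by
  unfold lay
  rw [adj_lr]
  constructor
  · rintro ⟨i', rfl, h⟩; exact h
  · intro h; exact ⟨i, rfl, h⟩

theorem lay_rr (i j : Fin t) :
    (lay up nn).Adj (Sum.inr i) (Sum.inr j) ↔ i ≠ j ∧ (nn i j = true ∨ nn j i = true) :=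
  adj_rr i j

theorem lay_ll (i j : Fin 4) :
    (lay up nn).Adj (Sum.inl i) (Sum.inl j) ↔ cyc4.Adj i j := adj_ll i j

theorem cyc4_adj (i j : Fin 4) : cyc4.Adj i j ↔ i ≠ j ∧ (j = i + 1 ∨ i = j + 1) := by
  unfold cyc4
  rw [SimpleGraph.fromRel_adj]

theorem glue (hPERM : StmtPERM) (c₁ : V → Fin 4) (c₂ : Fin 4 ⊕ Fin t → Fin 4)
    (hk : ∀ i j, c₁ (ρ i) = c₁ (ρ j) ↔ c₂ (Sum.inl i) = c₂ (Sum.inl j))
    (ex : Sym2 (V ⊕ Fin t) → Prop)
    (h1 : ∀ u v, G.Adj u v → ¬ ex s(Sum.inl u, Sum.inl v) → c₁ u ≠ c₁ v)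
    (h2 : ∀ i j, (lay up nn).Adj (Sum.inl i) (Sum.inr j) → ¬ ex s(Sum.inl (ρ i), Sum.inr j) →
      c₂ (Sum.inl i) ≠ c₂ (Sum.inr j))
    (h3 : ∀ i j, (lay up nn).Adj (Sum.inr i) (Sum.inr j) → ¬ ex s(Sum.inr i, Sum.inr j) →
      c₂ (Sum.inr i) ≠ c₂ (Sum.inr j)) :
    ∃ c : V ⊕ Fin t → Fin 4, (∀ u v, (ext G ρ up nn).Adj u v → ¬ ex s(u, v) → c u ≠ c v) ∧
      ∃ π : Equiv.Perm (Fin 4), ∀ j, c (Sum.inr j) = π (c₂ (Sum.inr j)) := by
  obtain ⟨π, hπ⟩ := hPERM (fun i => c₁ (ρ i)) (fun i => c₂ (Sum.inl i)) hk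
  have key : ∀ (u : V) (j : Fin t), (ext G ρ up nn).Adj (Sum.inl u) (Sum.inr j) →
      ¬ ex s(Sum.inl u, Sum.inr j) → c₁ u ≠ π (c₂ (Sum.inr j)) := by
    intro u j h he
    obtain ⟨i, rfl, hi⟩ := (adj_lr u j).1 h
    rw [← hπ i]
    exact π.injective.ne (h2 i j ((lay_lr i j).2 hi) he)
  refine ⟨Sum.elim c₁ (fun j => π (c₂ (Sum.inr j))), ?_, π, fun j => rfl⟩
  rintro (u | i) (v | j) h he
  · exact h1 u v ((adj_ll u v).1 h) he
  · exact key u j h he
  · rw [Sym2.eq_swap] at he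
    exact (key v i h.symm he).symm
  · exact π.injective.ne (h3 i j ((lay_rr i j).2 ((adj_rr i j).1 h)) he)

theorem match_outer (hG : CapCol G ρ) {f : Fin 4 → Fin 4} (h : Pat1 f ∨ Pat2 f) :
    ∃ c₁, Proper G c₁ ∧ ∀ i j, c₁ (ρ i) = c₁ (ρ j) ↔ f i = f j := by
  rcases h with h | h
  · obtain ⟨c, hc, hp⟩ := hG.pat1
    exact ⟨c, hc, ker11 hp h⟩
  · obtain ⟨c, hc, hp⟩ := hG.pat2
    exact ⟨c, hc, ker22 hp h⟩

end

theorem propEx_swap {V : Type} {G : SimpleGraph V} {x y : V} {c : V → Fin 4}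
    (h : PropEx G x y c) : PropEx G y x c := by
  intro u v huv he
  apply h u v huv
  rwa [Sym2.eq_swap (a := x)]

theorem gSCOL (hPERM : StmtPERM) : StmtSCOL := by
  intro V G ρ t up nn ι hG hL
  have hι : ∀ i, ι i ≠ ι (i + 1) := by
    intro i h
    have h1 : i = i + 1 := hL.inj h
    have key : ∀ i : Fin 4, i ≠ i + 1 := by decide
    exact key i h1
  -- glueing of a proper colouring of G and of a colouring of the layer
  have glueP : ∀ (c₂ : Fin 4 ⊕ Fin t → Fin 4) (ex : Sym2 (V ⊕ Fin t) → Prop),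
      (Pat1 (fun i => c₂ (Sum.inl i)) ∨ Pat2 (fun i => c₂ (Sum.inl i))) →
      (∀ i j, (lay up nn).Adj (Sum.inl i) (Sum.inr j) → ¬ ex s(Sum.inl (ρ i), Sum.inr j) →
        c₂ (Sum.inl i) ≠ c₂ (Sum.inr j)) →
      (∀ i j, (lay up nn).Adj (Sum.inr i) (Sum.inr j) → ¬ ex s(Sum.inr i, Sum.inr j) →
        c₂ (Sum.inr i) ≠ c₂ (Sum.inr j)) →
      ∃ c : V ⊕ Fin t → Fin 4, (∀ u v, (ext G ρ up nn).Adj u v → ¬ ex s(u, v) → c u ≠ c v) ∧
        ∃ π : Equiv.Perm (Fin 4), ∀ j, c (Sum.inr j) = π (c₂ (Sum.inr j)) := by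
    intro c₂ ex hp h2 h3
    obtain ⟨c₁, hc₁, hk⟩ := match_outer hG hp
    exact glue hPERM c₁ c₂ hk ex (fun u v h _ => hc₁ u v h) h2 h3
  refine ⟨?_, ?_, ?_, ?_, ?_, ?_, ?_⟩
  · exact fun i j h => hL.inj (Sum.inr_injective h)
  · intro i
    exact (adj_rr _ _).2 ⟨hι i, Or.inl (hL.ring i)⟩
  · intro c hc hinj
    have h1 : Proper (lay up nn) (fun x => c (Sum.map ρ id x)) := by
      rintro (i | i) (j | j) h
      · have h2 := (cyc4_adj i j).1 ((lay_ll i j).1 h)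
        apply hc
        refine (adj_ll _ _).2 ?_
        rcases h2 with ⟨_, rfl | rfl⟩
        · exact hG.ring i
        · exact (hG.ring j).symm
      · exact hc _ _ ((adj_lr _ _).2 ⟨i, rfl, (lay_lr i j).1 h⟩)
      · exact (hc _ _ ((adj_lr _ _).2 ⟨j, rfl, (lay_lr j i).1 h.symm⟩)).symm
      · exact hc _ _ ((adj_rr _ _).2 ((lay_rr i j).1 h))
    have h2 := hL.l1 _ h1 hinj
    exact hG.noR (fun v => c (Sum.inl v)) (fun u v h => hc _ _ ((adj_ll u v).2 h)) h2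
  · obtain ⟨c₂, hc₂, hin, hout⟩ := hL.l3a
    obtain ⟨c, hc, π, hπ⟩ := glueP c₂ (fun _ => False) hout (fun i j h _ => hc₂ _ _ h)
      (fun i j h _ => hc₂ _ _ h)
    refine ⟨c, fun u v h => hc u v h not_false, ?_⟩
    have e : (c ∘ fun i => Sum.inr (ι i)) = fun i => π (c₂ (Sum.inr (ι i))) :=
      funext fun i => hπ (ι i)
    rw [e]
    exact perm1 π hin
  · obtain ⟨c₂, hc₂, hin, hout⟩ := hL.l3b
    obtain ⟨c, hc, π, hπ⟩ := glueP c₂ (fun _ => False) hout (fun i j h _ => hc₂ _ _ h)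
      (fun i j h _ => hc₂ _ _ h)
    refine ⟨c, fun u v h => hc u v h not_false, ?_⟩
    have e : (c ∘ fun i => Sum.inr (ι i)) = fun i => π (c₂ (Sum.inr (ι i))) :=
      funext fun i => hπ (ι i)
    rw [e]
    exact perm2 π hin
  · have caseLR : ∀ (u : V) (j : Fin t), (ext G ρ up nn).Adj (Sum.inl u) (Sum.inr j) →
        ∃ c, PropEx (ext G ρ up nn) (Sum.inl u) (Sum.inr j) c ∧
          Function.Injective (c ∘ fun i => Sum.inr (ι i)) := by
      intro u j h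
      obtain ⟨i, rfl, hi⟩ := (adj_lr u j).1 h
      obtain ⟨c₂, hc₂, hin, hout⟩ := hL.l4 (Sum.inl i) (Sum.inr j) ((lay_lr i j).2 hi)
        (fun k => by simp) (fun k => by simp)
      obtain ⟨c, hc, π, hπ⟩ := glueP c₂ (fun e => e = s(Sum.inl (ρ i), Sum.inr j)) hout
        (fun i' j' h he => hc₂ _ _ h (fun e => he (by
          simp only [Sym2.eq_iff, Sum.inl.injEq, Sum.inr.injEq, reduceCtorEq, and_false,
            or_false] at e
          rw [e.1, e.2])))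
        (fun i' j' h he => hc₂ _ _ h (by simp))
      refine ⟨c, fun u v h he => hc u v h he, ?_⟩
      intro a b hab
      have hab' : c (Sum.inr (ι a)) = c (Sum.inr (ι b)) := hab
      rw [hπ, hπ] at hab'
      exact hin (π.injective hab')
    rintro (x | x) (y | y) h hne
    · have h' := (adj_ll x y).1 h
      by_cases hr : ∃ i, s(x, y) = s(ρ i, ρ (i + 1))
      · obtain ⟨i, hi⟩ := hr
        obtain ⟨c₂, hc₂, hin, hout⟩ := hL.l6 i
        obtain ⟨c₁, hc₁, hp⟩ := hG.critR i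
        obtain ⟨c, hc, π, hπ⟩ := glue (up := up) (nn := nn) hPERM c₁ c₂ (kerEE hp hout)
          (fun e => e = s(Sum.inl x, Sum.inl y))
          (fun u v huv he => hc₁ u v huv (fun e => he (by
            rw [← hi] at e
            rcases Sym2.eq_iff.1 e with ⟨rfl, rfl⟩ | ⟨rfl, rfl⟩
            · rfl
            · exact Sym2.eq_swap)))
          (fun i' j' h he => hc₂ _ _ h (by simp))
          (fun i' j' h he => hc₂ _ _ h (by simp))
        refine ⟨c, fun u v h he => hc u v h he, ?_⟩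
        intro a b hab
        have hab' : c (Sum.inr (ι a)) = c (Sum.inr (ι b)) := hab
        rw [hπ, hπ] at hab'
        exact hin (π.injective hab')
      · push Not at hr
        obtain ⟨c₁, hc₁, hp⟩ := hG.crit x y h' hr
        obtain ⟨c₂, hc₂, hin⟩ := hL.l2
        have hout := hL.l1 c₂ hc₂ hin
        obtain ⟨c, hc, π, hπ⟩ := glue (up := up) (nn := nn) hPERM c₁ c₂
          (fun i j => ⟨fun e => congrArg (fun k => c₂ (Sum.inl k)) (hp e),
            fun e => congrArg (fun k => c₁ (ρ k)) (hout e)⟩)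
          (fun e => e = s(Sum.inl x, Sum.inl y))
          (fun u v huv he => hc₁ u v huv (fun e => he (by
            rcases Sym2.eq_iff.1 e with ⟨rfl, rfl⟩ | ⟨rfl, rfl⟩
            · rfl
            · exact Sym2.eq_swap)))
          (fun i' j' h he => hc₂ _ _ h)
          (fun i' j' h he => hc₂ _ _ h)
        refine ⟨c, fun u v h he => hc u v h he, ?_⟩
        intro a b hab
        have hab' : c (Sum.inr (ι a)) = c (Sum.inr (ι b)) := hab
        rw [hπ, hπ] at hab'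
        exact hin (π.injective hab')
    · exact caseLR x y h
    · obtain ⟨c, hc, hi⟩ := caseLR y x h.symm
      exact ⟨c, propEx_swap hc, hi⟩
    · have h' := (adj_rr x y).1 h
      obtain ⟨c₂, hc₂, hin, hout⟩ := hL.l4 (Sum.inr x) (Sum.inr y) ((lay_rr x y).2 h')
        (fun k => by simp) (fun k e => hne k (by
          rcases Sym2.eq_iff.1 e with ⟨e1, e2⟩ | ⟨e1, e2⟩
          · rw [Sum.inr_injective e1, Sum.inr_injective e2]
          · rw [Sum.inr_injective e1, Sum.inr_injective e2]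
            exact Sym2.eq_swap))
      obtain ⟨c, hc, π, hπ⟩ := glueP c₂ (fun e => e = s(Sum.inr x, Sum.inr y)) hout
        (fun i' j' h he => hc₂ _ _ h (by simp))
        (fun i' j' h he => hc₂ _ _ h (fun e => he (by
          rcases Sym2.eq_iff.1 e with ⟨e1, e2⟩ | ⟨e1, e2⟩
          · rw [Sum.inr_injective e1, Sum.inr_injective e2]
          · rw [Sum.inr_injective e1, Sum.inr_injective e2]
            exact Sym2.eq_swap)))
      refine ⟨c, fun u v h he => hc u v h he, ?_⟩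
      intro a b hab
      have hab' : c (Sum.inr (ι a)) = c (Sum.inr (ι b)) := hab
      rw [hπ, hπ] at hab'
      exact hin (π.injective hab')
  · intro i
    obtain ⟨c₂, hc₂, hin, hout⟩ := hL.l5 i
    obtain ⟨c, hc, π, hπ⟩ := glueP c₂
      (fun e => e = s(Sum.inr (ι i), Sum.inr (ι (i + 1)))) hout
      (fun i' j' h he => hc₂ _ _ h (by simp))
      (fun i' j' h he => hc₂ _ _ h (fun e => he (by
          rcases Sym2.eq_iff.1 e with ⟨e1, e2⟩ | ⟨e1, e2⟩
          · rw [Sum.inr_injective e1, Sum.inr_injective e2]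
          · rw [Sum.inr_injective e1, Sum.inr_injective e2]
            exact Sym2.eq_swap)))
    refine ⟨c, fun u v h he => hc u v h he, ?_⟩
    have e : (c ∘ fun i => Sum.inr (ι i)) = fun i => π (c₂ (Sum.inr (ι i))) :=
      funext fun i => hπ (ι i)
    rw [e]
    exact permE π hin

end Pool.Agent.Helper32.CR
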